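import Pool.Agent.TH690.PF.Unram
import Pool.Agent.TH826.DC.Tori
set_option autoImplicit false

/-!
Smoothness, evaluation of functions at complex points, and tori in the fibrations.
-/

namespace Pool.Agent.TH690.PF

open Pool.Agent.TH826.MK

section smooth

/-- A lower bound for the values of a product of linear factors at its critical points. -/
theorem exists_delta {M : ℕ} (b : Fin (M + 1) → ℂ) : ∃ δ : ℝ, 0 < δ ∧ ∀ t : ℂ,
    (∀ i, t - b i ≠ 0) → ∑ i, (t - b i)⁻¹ = 0 → δ ≤ ‖∏ i, (t - b i)‖ := by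
  classical
  set f : Polynomial ℂ := ∏ i, (Polynomial.X - Polynomial.C (b i)) with hf
  have hdeg : f.natDegree = M + 1 := by
    rw [hf, Polynomial.natDegree_prod_of_monic _ _ fun e _ => Polynomial.monic_X_sub_C _]
    simp
  have hf' : Polynomial.derivative f ≠ 0 := by
    intro h
    have := Polynomial.natDegree_eq_zero_of_derivative_eq_zero h
    omega
  have hfin : ∀ s : Finset ℂ, ∃ δ : ℝ, 0 < δ ∧ ∀ t ∈ s, f.eval t ≠ 0 → δ ≤ ‖f.eval t‖ := by
    intro s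
    induction s using Finset.induction_on with
    | empty => exact ⟨1, one_pos, fun t ht => absurd ht (Finset.notMem_empty t)⟩
    | insert t s _ ih =>
      obtain ⟨δ, hδ, h⟩ := ih
      by_cases ht : f.eval t = 0
      · refine ⟨δ, hδ, fun r hr hr0 => ?_⟩
        rcases Finset.mem_insert.1 hr with rfl | hr
        · exact absurd ht hr0
        · exact h r hr hr0
      · refine ⟨min δ ‖f.eval t‖, lt_min hδ (norm_pos_iff.2 ht), fun r hr hr0 => ?_⟩
        rcases Finset.mem_insert.1 hr with rfl | hr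
        · exact min_le_right _ _
        · exact (min_le_left _ _).trans (h r hr hr0)
  obtain ⟨δ, hδ, h⟩ := hfin (Polynomial.derivative f).roots.toFinset
  refine ⟨δ, hδ, fun t ht hsum => ?_⟩
  have he : f.eval t = ∏ i, (t - b i) := by
    rw [hf, Polynomial.eval_prod]
    simp
  have hmem : t ∈ (Polynomial.derivative f).roots.toFinset := by
    rw [Multiset.mem_toFinset, Polynomial.mem_roots hf', Polynomial.IsRoot.def]
    have h1 : Polynomial.derivative f = ∑ i, ∏ j ∈ Finset.univ.erase i,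
        (Polynomial.X - Polynomial.C (b j)) := by
      rw [hf, Polynomial.derivative_prod_finset]
      refine Finset.sum_congr rfl fun i _ => ?_
      rw [Polynomial.derivative_X_sub_C, mul_one]
    rw [h1, Polynomial.eval_finsetSum]
    have h2 : ∀ i, Polynomial.eval t (∏ j ∈ Finset.univ.erase i,
        (Polynomial.X - Polynomial.C (b j))) = (∏ j, (t - b j)) * (t - b i)⁻¹ := by
      intro i
      rw [Polynomial.eval_prod, ← Finset.mul_prod_erase _ _ (Finset.mem_univ i)]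
      have := ht i
      simp only [Polynomial.eval_sub, Polynomial.eval_X, Polynomial.eval_C]
      field_simp
    simp only [h2, ← Finset.mul_sum, hsum, mul_zero]
  rw [← he]
  refine h t hmem ?_
  rw [he]
  exact Finset.prod_ne_zero_iff.2 fun i _ => ht i

variable {K : Type*} [Field K] {n : ℕ} {m : Fin n → ℕ}
  {a : (k : Fin n) → Fin (m k + 1) → K}

theorem eval_fl (σ : K →+* ℂ) (x : Fin n → ℂ) (e : (k : Fin n) × Fin (m k + 1)) :
    MvPolynomial.eval₂ σ x (fl a e) = x e.1 - σ (a e.1 e.2) := by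
  unfold fl
  rw [MvPolynomial.eval₂_sub, MvPolynomial.eval₂_X, MvPolynomial.eval₂_C]

theorem eval_mPhi (σ : K →+* ℂ) (lam : K) (x : Fin n → ℂ) :
    MvPolynomial.eval₂ σ x (mPhi lam a) =
      σ lam * ∏ e : (k : Fin n) × Fin (m k + 1), (x e.1 - σ (a e.1 e.2)) := by
  unfold mPhi
  rw [MvPolynomial.eval₂_mul, MvPolynomial.eval₂_C, MvPolynomial.eval₂_prod]
  simp only [eval_fl]

theorem eval_pderiv_prod {ι : Type*} [DecidableEq ι] (σ : K →+* ℂ) (x : Fin n → ℂ)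
    (j : Fin n) (f : ι → MvPolynomial (Fin n) K) (s : Finset ι)
    (h : ∀ e ∈ s, MvPolynomial.eval₂ σ x (f e) ≠ 0) :
    MvPolynomial.eval₂ σ x (MvPolynomial.pderiv j (∏ e ∈ s, f e)) =
      (∑ e ∈ s, MvPolynomial.eval₂ σ x (MvPolynomial.pderiv j (f e)) *
        (MvPolynomial.eval₂ σ x (f e))⁻¹) * MvPolynomial.eval₂ σ x (∏ e ∈ s, f e) := by
  induction s using Finset.induction_on with
  | empty => simp
  | insert e s he ih =>
    have h1 := ih fun e he => h e (Finset.mem_insert_of_mem he)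
    have h2 := h e (Finset.mem_insert_self _ _)
    rw [Finset.prod_insert he, Finset.sum_insert he, Derivation.leibniz]
    simp only [smul_eq_mul]
    rw [MvPolynomial.eval₂_add, MvPolynomial.eval₂_mul, MvPolynomial.eval₂_mul,
      MvPolynomial.eval₂_mul, h1]
    field_simp
    ring

theorem pderiv_fl (j : Fin n) (e : (k : Fin n) × Fin (m k + 1)) :
    MvPolynomial.pderiv j (fl a e) = if e.1 = j then 1 else 0 := by
  unfold fl
  rw [map_sub, MvPolynomial.pderiv_C, sub_zero]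
  split_ifs with h
  · rw [h, MvPolynomial.pderiv_X_self]
  · rw [MvPolynomial.pderiv_X_of_ne h]

/-- For large `λ`, the values of `Φ` at its critical points are large or zero. -/
theorem exists_noncrit (σ : K →+* ℂ) (a : (k : Fin n) → Fin (m k + 1) → K) :
    ∃ C : ℝ, ∀ (lam : K) (u : ℂ), u ≠ 0 → C * ‖u‖ ≤ ‖σ lam‖ → ∀ x : Fin n → ℂ,
      MvPolynomial.eval₂ σ x (mPhi lam a) = u →
      ∃ j, MvPolynomial.eval₂ σ x (MvPolynomial.pderiv j (mPhi lam a)) ≠ 0 := by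
  classical
  choose δ hδ hδ1 using fun k => exists_delta fun i : Fin (m k + 1) => σ (a k i)
  have hD : 0 < ∏ k, δ k := Finset.prod_pos fun k _ => hδ k
  refine ⟨(∏ k, δ k)⁻¹ + 1, fun lam u hu hlam x hx => ?_⟩
  by_contra hcon
  push Not at hcon
  have hu0 : 0 < ‖u‖ := norm_pos_iff.2 hu
  rw [eval_mPhi] at hx
  have hne : σ lam ≠ 0 ∧ ∏ e : (k : Fin n) × Fin (m k + 1), (x e.1 - σ (a e.1 e.2)) ≠ 0 := by
    rw [← mul_ne_zero_iff, hx]
    exact hu
  have hnz : ∀ e : (k : Fin n) × Fin (m k + 1), x e.1 - σ (a e.1 e.2) ≠ 0 := fun e =>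
    (Finset.prod_ne_zero_iff.1 hne.2) e (Finset.mem_univ e)
  have hgrad : ∀ j, ∑ i, (x j - σ (a j i))⁻¹ = 0 := by
    intro j
    have h1 := hcon j
    unfold mPhi at h1
    rw [MvPolynomial.pderiv_C_mul, MvPolynomial.eval₂_mul, MvPolynomial.eval₂_C,
      eval_pderiv_prod σ x j _ _ (fun e _ => by rw [eval_fl]; exact hnz e),
      MvPolynomial.eval₂_prod] at h1
    simp only [pderiv_fl, eval_fl] at h1
    have h2 : ∑ e : (k : Fin n) × Fin (m k + 1),
        MvPolynomial.eval₂ σ x (if e.1 = j then 1 else 0) * (x e.1 - σ (a e.1 e.2))⁻¹ =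
        ∑ i, (x j - σ (a j i))⁻¹ := by
      rw [Fintype.sum_sigma, Finset.sum_eq_single j]
      · refine Finset.sum_congr rfl fun i _ => ?_
        rw [if_pos rfl, MvPolynomial.eval₂_one, one_mul]
      · intro k _ hk
        refine Finset.sum_eq_zero fun i _ => ?_
        rw [if_neg hk, MvPolynomial.eval₂_zero, zero_mul]
      · intro h
        exact absurd (Finset.mem_univ j) h
    rw [h2] at h1
    rcases mul_eq_zero.1 h1 with h | h
    · exact absurd h hne.1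
    · rcases mul_eq_zero.1 h with h | h
      · exact h
      · exact absurd h hne.2
  have hlow : ∏ k, δ k ≤ ‖∏ e : (k : Fin n) × Fin (m k + 1), (x e.1 - σ (a e.1 e.2))‖ := by
    rw [Fintype.prod_sigma, norm_prod]
    exact Finset.prod_le_prod (fun k _ => (hδ k).le) fun k _ =>
      hδ1 k (x k) (fun i => hnz ⟨k, i⟩) (hgrad k)
  have h1 : ‖σ lam‖ * ∏ k, δ k ≤ ‖u‖ := by
    rw [← hx, norm_mul]
    exact mul_le_mul_of_nonneg_left hlow (norm_nonneg _)
  have h2 : ‖u‖ = (∏ k, δ k)⁻¹ * ‖u‖ * ∏ k, δ k := by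
    field_simp
  have h3 : ((∏ k, δ k)⁻¹ + 1) * ‖u‖ * ∏ k, δ k ≤ ‖σ lam‖ * ∏ k, δ k :=
    mul_le_mul_of_nonneg_right hlam hD.le
  have h4 : 0 < ‖u‖ * ∏ k, δ k := mul_pos hu0 hD
  nlinarith

/-- The hypersurface `F = Y z² + Y (y_1 + ... + y_q - Φ) z + 1 = 0`,
`Y = y_1 ^ (w_1 + 1) ... y_q ^ (w_q + 1)`, is smooth at its complex points over `σ`: at no such point
all the partial derivatives
`∂F/∂z = 2 Y z + Y (y_1 + ... + y_q - Φ)`,
`∂F/∂y_k = (w_k + 1) y_k ^ w_k (∏_{i ≠ k} y_i ^ (w_i + 1)) (z² + (y_1 + ... + y_q - Φ) z) + Y z`,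
`∂F/∂x_j = - Y ∂Φ/∂x_j z` vanish. -/
def SmoothPts {q : ℕ} (w : Fin q → ℕ) (σ : K →+* ℂ) (Φ : MvPolynomial (Fin n) K) : Prop :=
  ∀ (x : Fin n → ℂ) (y : Fin q → ℂ) (z Y t : ℂ), Y = ∏ i, y i ^ (w i + 1) →
    t = ∑ i, y i - MvPolynomial.eval₂ σ x Φ →
    Y * z ^ 2 + Y * t * z + 1 = 0 →
    2 * Y * z + Y * t ≠ 0 ∨
    (∃ k, (w k + 1) * y k ^ w k * (∏ i ∈ Finset.univ.erase k, y i ^ (w i + 1)) *
      (z ^ 2 + t * z) + Y * z ≠ 0) ∨
    ∃ j, -Y * MvPolynomial.eval₂ σ x (MvPolynomial.pderiv j Φ) * z ≠ 0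

/-- The hypersurfaces are smooth for large `λ`. -/
theorem exists_smoothPts {q : ℕ} (w : Fin q → ℕ) (σ : K →+* ℂ)
    (a : (k : Fin n) → Fin (m k + 1) → K) :
    ∃ C : ℝ, ∀ lam : K, C ≤ ‖σ lam‖ → SmoothPts w σ (mPhi lam a) := by
  obtain ⟨C, hC⟩ := exists_noncrit σ a
  set w0 : ℕ := ∑ i, (w i + 1) with hw0
  refine ⟨|C| * (w0 + 2), fun lam hlam x y z Y t hY ht heq => ?_⟩
  by_contra hcon
  push Not at hcon
  obtain ⟨h1, h2, h3⟩ := hcon
  set Φ : ℂ := MvPolynomial.eval₂ σ x (mPhi lam a) with hΦdef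
  have hYz : Y ≠ 0 ∧ z ≠ 0 := by
    constructor
    · intro h
      rw [h] at heq
      norm_num at heq
    · intro h
      rw [h] at heq
      norm_num at heq
  obtain ⟨hY0, hz0⟩ := hYz
  have hYz2 : Y * z ^ 2 = 1 := by linear_combination z * h1 - heq
  have hyz : ∀ i, y i = (w i + 1) * z := by
    intro i
    have h4 := h2 i
    have h5 : y i ^ (w i + 1) * ∏ k ∈ Finset.univ.erase i, y k ^ (w k + 1) = Y := by
      rw [hY]
      exact Finset.mul_prod_erase Finset.univ (fun k => y k ^ (w k + 1)) (Finset.mem_univ i)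
    rw [pow_succ] at h5
    have h6 : Y * z * (y i - (w i + 1) * z) = 0 := by
      linear_combination y i * h4 - (w i + 1) * (z ^ 2 + t * z) * h5 -
        (w i + 1) * heq - (w i + 1) * hYz2
    rcases mul_eq_zero.1 h6 with h | h
    · exact absurd h (mul_ne_zero hY0 hz0)
    · exact sub_eq_zero.1 h
  have hYq : Y = ((∏ i, (w i + 1) ^ (w i + 1) : ℕ) : ℂ) * z ^ w0 := by
    rw [hY, hw0, Nat.cast_prod, ← Finset.prod_pow_eq_pow_sum, ← Finset.prod_mul_distrib]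
    refine Finset.prod_congr rfl fun i _ => ?_
    rw [hyz, mul_pow]
    push_cast
    rfl
  have hS : ∑ i, y i = w0 * z := by
    simp only [hyz]
    rw [← Finset.sum_mul, hw0]
    push_cast
    rfl
  have hnz : ‖z‖ ≤ 1 := by
    have h4 : ((∏ i, (w i + 1) ^ (w i + 1) : ℕ) : ℂ) * z ^ (w0 + 2) = 1 := by
      rw [pow_add, ← mul_assoc, ← hYq, hYz2]
    have h5 := congrArg norm h4
    rw [norm_mul, norm_pow, norm_one, Complex.norm_natCast] at h5
    have h6 : (1 : ℝ) ≤ ((∏ i, (w i + 1) ^ (w i + 1) : ℕ) : ℝ) := by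
      exact_mod_cast Finset.one_le_prod' fun i _ => Nat.one_le_pow _ _ (Nat.succ_pos _)
    by_contra hcon
    push Not at hcon
    have h7 : 1 < ‖z‖ ^ (w0 + 2) := one_lt_pow₀ hcon (by omega)
    nlinarith
  have hPhi : Φ = (w0 + 2) * z := by
    rw [ht, hS] at h1
    have h4 : Y * (2 * z + (w0 * z - Φ)) = 0 := by linear_combination h1
    rcases mul_eq_zero.1 h4 with h | h
    · exact absurd h hY0
    · linear_combination -h
  have hq2 : (w0 + 2 : ℂ) ≠ 0 := by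
    exact_mod_cast (show w0 + 2 ≠ 0 by omega)
  obtain ⟨j, hj⟩ := hC lam Φ (by rw [hPhi]; exact mul_ne_zero hq2 hz0) (by
    rw [hPhi, norm_mul]
    have h4 : ‖(w0 + 2 : ℂ)‖ = w0 + 2 := by
      have h5 : (w0 + 2 : ℂ) = ((w0 + 2 : ℝ) : ℂ) := by push_cast; ring
      rw [h5, Complex.norm_real, Real.norm_eq_abs, abs_of_pos (by positivity)]
    rw [h4]
    refine le_trans ?_ hlam
    calc C * ((w0 + 2) * ‖z‖) ≤ |C| * ((w0 + 2) * ‖z‖) :=
          mul_le_mul_of_nonneg_right (le_abs_self C) (by positivity)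
      _ ≤ |C| * ((w0 + 2) * 1) := by gcongr
      _ = |C| * (w0 + 2) := by ring) x rfl
  have h4 := h3 j
  rw [mul_eq_zero, or_iff_left hz0, mul_eq_zero, neg_eq_zero, or_iff_right hY0] at h4
  exact hj h4

end smooth

section Ev

variable {K : Type*} [Field K] {n N q : ℕ} {w : Fin q → ℕ} {σ : K →+* ℂ}
  {Φ : MvPolynomial (Fin n) K}

/-- The complex points of the hypersurface with `Φ ≠ 0`. -/
structure PPt (w : Fin q → ℕ) (σ : K →+* ℂ) (Φ : MvPolynomial (Fin n) K)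
    (x : Fin n → ℂ) (y : Fin q → ℂ) (z : ℂ) : Prop where
  eq : (∏ i, y i ^ (w i + 1)) * z ^ 2 +
    (∏ i, y i ^ (w i + 1)) * (∑ i, y i - MvPolynomial.eval₂ σ x Φ) * z + 1 = 0
  hPhi : MvPolynomial.eval₂ σ x Φ ≠ 0

/-- the ring homomorphism on the polynomials in `x` and `y` -/
noncomputable def evR (σ : K →+* ℂ) (x : Fin n → ℂ) (y : Fin q → ℂ) :
    MvPolynomial (Fin n ⊕ Fin q) K →+* ℂ :=
  MvPolynomial.eval₂Hom σ (Sum.elim x y)

theorem evR_rename (x : Fin n → ℂ) (y : Fin q → ℂ) (p : MvPolynomial (Fin n) K) :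
    evR σ x y (MvPolynomial.rename Sum.inl p) = MvPolynomial.eval₂ σ x p := by
  unfold evR
  rw [MvPolynomial.coe_eval₂Hom, MvPolynomial.eval₂_rename]
  rfl

theorem evR_y (x : Fin n → ℂ) (y : Fin q → ℂ) (i : Fin q) :
    evR σ x y (MvPolynomial.X (Sum.inr i)) = y i := by
  unfold evR
  rw [MvPolynomial.coe_eval₂Hom, MvPolynomial.eval₂_X]
  rfl

theorem PPt.eval_eP {x : Fin n → ℂ} {y : Fin q → ℂ} {z : ℂ} (hx : PPt w σ Φ x y z) :
    Polynomial.eval₂ (evR σ x y) z (eP w Φ) = 0 := by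
  unfold eP
  simp only [Polynomial.eval₂_add, Polynomial.eval₂_mul,
    Polynomial.eval₂_pow, Polynomial.eval₂_X, Polynomial.eval₂_C, Polynomial.eval₂_one]
  rw [map_mul, map_sub, evR_rename]
  unfold pY pS
  rw [map_prod, map_sum]
  simp only [map_pow, evR_y]
  exact hx.eq

/-- evaluation of the regular functions on the hypersurface -/
noncomputable def PPt.evB {x : Fin n → ℂ} {y : Fin q → ℂ} {z : ℂ}
    (hx : PPt w σ Φ x y z) : PRing w Φ →+* ℂ :=
  AdjoinRoot.lift (evR σ x y) z hx.eval_eP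

theorem PPt.evB_pof {x : Fin n → ℂ} {y : Fin q → ℂ} {z : ℂ} (hx : PPt w σ Φ x y z)
    (p : MvPolynomial (Fin n ⊕ Fin q) K) : hx.evB (pof w Φ p) = evR σ x y p :=
  AdjoinRoot.lift_of hx.eval_eP

theorem PPt.evB_ppol {x : Fin n → ℂ} {y : Fin q → ℂ} {z : ℂ} (hx : PPt w σ Φ x y z)
    (p : MvPolynomial (Fin n) K) : hx.evB (ppol w Φ p) = MvPolynomial.eval₂ σ x p := by
  show hx.evB (pof w Φ (MvPolynomial.rename Sum.inl p)) = _
  rw [hx.evB_pof, evR_rename]

theorem PPt.evB_py {x : Fin n → ℂ} {y : Fin q → ℂ} {z : ℂ} (hx : PPt w σ Φ x y z)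
    (i : Fin q) : hx.evB (py w Φ i) = y i := by
  show hx.evB (pof w Φ (MvPolynomial.X (Sum.inr i))) = _
  rw [hx.evB_pof, evR_y]

theorem PPt.evB_mk {x : Fin n → ℂ} {y : Fin q → ℂ} {z : ℂ} (hx : PPt w σ Φ x y z)
    (p : Polynomial (MvPolynomial (Fin n ⊕ Fin q) K)) :
    hx.evB (AdjoinRoot.mk (eP w Φ) p : AdjoinRoot (eP w Φ)) = p.eval₂ (evR σ x y) z :=
  AdjoinRoot.lift_mk hx.eval_eP p

theorem PPt.evB_pz {x : Fin n → ℂ} {y : Fin q → ℂ} {z : ℂ} (hx : PPt w σ Φ x y z) :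
    hx.evB (pz w Φ) = z :=
  AdjoinRoot.lift_root hx.eval_eP

theorem PPt.evB_ne {x : Fin n → ℂ} {y : Fin q → ℂ} {z : ℂ} (hx : PPt w σ Φ x y z) :
    hx.evB (ppol w Φ Φ) ≠ 0 := by
  rw [hx.evB_ppol]
  exact hx.hPhi

/-- evaluation of the regular functions on the open part -/
noncomputable def PPt.evA {x : Fin n → ℂ} {y : Fin q → ℂ} {z : ℂ}
    (hx : PPt w σ Φ x y z) : POpen w Φ →+* ℂ :=
  liftP hx.evB hx.evB_ne

theorem PPt.evA_toP {x : Fin n → ℂ} {y : Fin q → ℂ} {z : ℂ} (hx : PPt w σ Φ x y z)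
    (b : PRing w Φ) : hx.evA (toP w Φ b) = hx.evB b :=
  liftP_toP _ _ _

theorem PPt.evA_congr {x x' : Fin n → ℂ} {y y' : Fin q → ℂ} {z z' : ℂ}
    (hx : PPt w σ Φ x y z) (hx' : PPt w σ Φ x' y' z') (h : x = x') (h' : y = y')
    (h'' : z = z') : hx.evA = hx'.evA := by
  subst h
  subst h'
  subst h''
  rfl

theorem PPt.evA_pcst {x : Fin n → ℂ} {y : Fin q → ℂ} {z : ℂ} (hx : PPt w σ Φ x y z)
    (u : K) : hx.evA (pcst w Φ u) = σ u := by
  show hx.evA (toP w Φ (ppol w Φ (MvPolynomial.C u))) = _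
  rw [hx.evA_toP, hx.evB_ppol, MvPolynomial.eval₂_C]

theorem PPt.evA_uz {x : Fin n → ℂ} {y : Fin q → ℂ} {z : ℂ} (hx : PPt w σ Φ x y z) :
    hx.evA (uz w Φ : POpen w Φ) = z := by
  rw [coe_uz, hx.evA_toP, hx.evB_pz]

theorem PPt.evA_uy {x : Fin n → ℂ} {y : Fin q → ℂ} {z : ℂ} (hx : PPt w σ Φ x y z)
    (i : Fin q) : hx.evA (uy w Φ i : POpen w Φ) = y i := by
  rw [coe_uy, hx.evA_toP, hx.evB_py]

theorem contDiff_evA {x : (Fin N → ℝ) → (Fin n → ℂ)} {y : (Fin N → ℝ) → (Fin q → ℂ)}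
    {z : (Fin N → ℝ) → ℂ}
    (hc : ContDiff ℝ 2 x) (hyc : ContDiff ℝ 2 y) (hz : ContDiff ℝ 2 z)
    (hx : ∀ θ, PPt w σ Φ (x θ) (y θ) (z θ)) (h : POpen w Φ) :
    ContDiff ℝ 2 fun θ => (hx θ).evA h := by
  have hxk : ∀ k, ContDiff ℝ 2 fun θ => Sum.elim (x θ) (y θ) k := by
    intro k
    rcases k with k | k
    · exact contDiff_pi.1 hc k
    · exact contDiff_pi.1 hyc k
  have hR : ∀ p : MvPolynomial (Fin n ⊕ Fin q) K,
      ContDiff ℝ 2 fun θ => evR σ (x θ) (y θ) p := by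
    intro p
    induction p using MvPolynomial.induction_on with
    | C c => simpa [evR] using contDiff_const
    | add p q hp hq => simpa using hp.add hq
    | mul_X p k hp =>
      have e : (fun θ => evR σ (x θ) (y θ) (p * MvPolynomial.X k)) =
          fun θ => evR σ (x θ) (y θ) p * Sum.elim (x θ) (y θ) k := by
        funext θ
        rw [map_mul]
        congr 1
        exact MvPolynomial.eval₂_X _ _ _
      rw [e]
      exact hp.mul (hxk k)
  have hB : ∀ b : PRing w Φ, ContDiff ℝ 2 fun θ => (hx θ).evB b := by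
    intro b
    obtain ⟨p, hp⟩ := AdjoinRoot.mk_surjective (g := eP w Φ) b
    have e : (fun θ => (hx θ).evB b) = fun θ =>
        ∑ i ∈ Finset.range (p.natDegree + 1), evR σ (x θ) (y θ) (p.coeff i) * (z θ) ^ i := by
      funext θ
      rw [← hp, (hx θ).evB_mk, Polynomial.eval₂_eq_sum_range]
    rw [e]
    exact ContDiff.sum fun i _ => (hR _).mul (hz.pow i)
  obtain ⟨p, hp⟩ := AdjoinRoot.mk_surjective (g := pqnT w Φ) h
  have e : (fun θ => (hx θ).evA h) = fun θ =>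
      ∑ i ∈ Finset.range (p.natDegree + 1), (hx θ).evB (p.coeff i) *
        ((hx θ).evB (ppol w Φ Φ))⁻¹ ^ i := by
    funext θ
    rw [← hp]
    unfold PPt.evA
    rw [liftP_mk, Polynomial.eval₂_eq_sum_range]
  rw [e]
  exact ContDiff.sum fun i _ => (hB _).mul
    (((hB _).inv fun θ => (hx θ).evB_ne).pow i)

/-- a torus in the hypersurface -/
noncomputable def mkP (x : (Fin N → ℝ) → (Fin n → ℂ)) (y : (Fin N → ℝ) → (Fin q → ℂ))
    (z : (Fin N → ℝ) → ℂ) (hc : ContDiff ℝ 2 x) (hyc : ContDiff ℝ 2 y) (hzc : ContDiff ℝ 2 z)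
    (hp : ∀ θ i, x (θ + Pi.single i 1) = x θ) (hyp : ∀ θ i, y (θ + Pi.single i 1) = y θ)
    (hzp : ∀ θ i, z (θ + Pi.single i 1) = z θ)
    (hx : ∀ θ, PPt w σ Φ (x θ) (y θ) (z θ)) : Torus (POpen w Φ) N where
  e θ := (hx θ).evA
  smooth h := contDiff_evA hc hyc hzc hx h
  periodic θ i := PPt.evA_congr _ _ (hp θ i) (hyp θ i) (hzp θ i)

variable (x : (Fin N → ℝ) → (Fin n → ℂ)) (y : (Fin N → ℝ) → (Fin q → ℂ))
    (z : (Fin N → ℝ) → ℂ) (hc : ContDiff ℝ 2 x) (hyc : ContDiff ℝ 2 y) (hzc : ContDiff ℝ 2 z)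
    (hp : ∀ θ i, x (θ + Pi.single i 1) = x θ) (hyp : ∀ θ i, y (θ + Pi.single i 1) = y θ)
    (hzp : ∀ θ i, z (θ + Pi.single i 1) = z θ)
    (hx : ∀ θ, PPt w σ Φ (x θ) (y θ) (z θ))

theorem mkP_uz : (mkP x y z hc hyc hzc hp hyp hzp hx).fn (uz w Φ : POpen w Φ) = z := by
  funext θ
  exact (hx θ).evA_uz

theorem mkP_uy (i : Fin q) :
    (mkP x y z hc hyc hzc hp hyp hzp hx).fn (uy w Φ i : POpen w Φ) = fun θ => y θ i := by
  funext θ
  exact (hx θ).evA_uy i

end Ev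

section evx

variable {K : Type*} [Field K] {n N q : ℕ} {w : Fin q → ℕ} {σ : K →+* ℂ} {m : Fin n → ℕ}
  {lam : K} {a : (k : Fin n) → Fin (m k + 1) → K}

variable (x : (Fin N → ℝ) → (Fin n → ℂ)) (y : (Fin N → ℝ) → (Fin q → ℂ))
    (z : (Fin N → ℝ) → ℂ) (hc : ContDiff ℝ 2 x) (hyc : ContDiff ℝ 2 y) (hzc : ContDiff ℝ 2 z)
    (hp : ∀ θ i, x (θ + Pi.single i 1) = x θ) (hyp : ∀ θ i, y (θ + Pi.single i 1) = y θ)
    (hzp : ∀ θ i, z (θ + Pi.single i 1) = z θ)
    (hx : ∀ θ, PPt w σ (mPhi lam a) (x θ) (y θ) (z θ))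

theorem mkP_ux (e : (k : Fin n) × Fin (m k + 1)) :
    (mkP x y z hc hyc hzc hp hyp hzp hx).fn (ux w lam a e : POpen w (mPhi lam a)) =
      fun θ => x θ e.1 - σ (a e.1 e.2) := by
  funext θ
  show (hx θ).evA (ux w lam a e : POpen w (mPhi lam a)) = _
  rw [coe_ux, PPt.evA_toP, PPt.evB_ppol, eval_fl]

end evx

end Pool.Agent.TH690.PF
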