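import Pool.Agent.TH690.SF.Branch
import Pool.Agent.TH690.PF.Tori
set_option autoImplicit false

/-!
The matrices of the orders of the entries at the points with `x_k = a_{k,i_k}`.
-/

namespace Pool.Agent.TH690.PF

open Pool.Agent.TH826.MK

open Pool.Agent.TH826.GA

open Pool.Agent.TH826.DC (wT)

section main

variable {K : Type*} [Field K] {n : ℕ} {m : Fin n → ℕ} (q : ℕ)

/-- the coordinates at the point `t` and the coordinates `y` -/
def TP (t : (k : Fin n) → Fin (m k)) : Fin (n + q) → ((k : Fin n) × Fin (m k + 1)) ⊕ Fin q :=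
  Fin.append (fun k => Sum.inl ⟨k, (t k).succ⟩) fun i => Sum.inr i

theorem TP_castAdd (t : (k : Fin n) → Fin (m k)) (k : Fin n) :
    TP q t (Fin.castAdd q k) = Sum.inl ⟨k, (t k).succ⟩ := by
  unfold TP
  rw [Fin.append_left]

theorem TP_natAdd (t : (k : Fin n) → Fin (m k)) (i : Fin q) :
    TP q t (Fin.natAdd n i) = Sum.inr i := by
  unfold TP
  rw [Fin.append_right]

theorem TP_injective (t : (k : Fin n) → Fin (m k)) : Function.Injective (TP q t) := by
  intro k l
  refine Fin.addCases (fun k => ?_) (fun k => ?_) k <;>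
    refine Fin.addCases (fun l => ?_) (fun l => ?_) l
  · rw [TP_castAdd, TP_castAdd]
    intro h
    have h1 := congrArg Sigma.fst (Sum.inl_injective h)
    rw [show k = l from h1]
  · rw [TP_castAdd, TP_natAdd]
    intro h
    exact absurd h (by simp)
  · rw [TP_castAdd, TP_natAdd]
    intro h
    exact absurd h (by simp)
  · rw [TP_natAdd, TP_natAdd]
    intro h
    rw [Sum.inr_injective h]

/-- the functions -/
noncomputable def HP (σ : K →+* ℂ) (a : (k : Fin n) → Fin (m k + 1) → K)
    (t : (k : Fin n) → Fin (m k)) (e : ((k : Fin n) × Fin (m k + 1)) ⊕ Fin q)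
    (u : Fin (n + q) → ℂ) : ℂ :=
  Sum.elim (fun e : (k : Fin n) × Fin (m k + 1) =>
      u (Fin.castAdd q e.1) + σ (a e.1 (t e.1).succ) - σ (a e.1 e.2))
    (fun i => u (Fin.natAdd n i)) e

/-- the winding numbers of `Φ` -/
noncomputable def om (n q : ℕ) : Fin (n + q) → ℝ := Fin.append (fun _ => 1) fun _ => 0

/-- the matrix of the orders of the entries at the point `t` -/
noncomputable def RP (t i : (k : Fin n) → Fin (m k)) :
    Matrix (Fin (n + q + 1)) (Fin (n + q + 1)) ℝ :=
  Matrix.of (Fin.cons (Fin.cons 1 (om n q)) (Fin.append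
    (fun k : Fin n => (Fin.cons 0 fun j => wT (TP q t) (Sum.inl ⟨k, (i k).succ⟩) j -
      wT (TP q t) (Sum.inl ⟨k, 0⟩) j : Fin (n + q + 1) → ℝ))
    (fun l : Fin q => (Fin.cons 0 fun j => if j = Fin.natAdd n l then 1 else 0 :
      Fin (n + q + 1) → ℝ))))

theorem wT_castAdd (t : (k : Fin n) → Fin (m k)) (k : Fin n) (e : Fin (m k + 1)) (j : Fin n) :
    wT (TP q t) (Sum.inl ⟨k, e⟩) (Fin.castAdd q j) =
      if j = k ∧ (t k).succ = e then 1 else 0 := by
  unfold wT
  rw [TP_castAdd]
  by_cases h : j = k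
  · subst h
    by_cases h2 : (t j).succ = e
    · rw [if_pos (by rw [h2]), if_pos ⟨rfl, h2⟩]
    · rw [if_neg, if_neg fun h => h2 h.2]
      intro h3
      have h4 := Sum.inl_injective h3
      rw [Sigma.mk.injEq] at h4
      exact h2 (eq_of_heq h4.2)
  · rw [if_neg, if_neg fun h' => h h'.1]
    intro h3
    exact h (congrArg Sigma.fst (Sum.inl_injective h3))

theorem wT_natAdd (t : (k : Fin n) → Fin (m k)) (e : (k : Fin n) × Fin (m k + 1)) (i : Fin q) :
    wT (TP q t) (Sum.inl e) (Fin.natAdd n i) = 0 := by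
  unfold wT
  rw [TP_natAdd, if_neg]
  simp

theorem sum_wT (t : (k : Fin n) → Fin (m k)) (j : Fin (n + q)) :
    ∑ e : (k : Fin n) × Fin (m k + 1), wT (TP q t) (Sum.inl e) j = om n q j := by
  refine Fin.addCases (fun j => ?_) (fun i => ?_) j
  · unfold om
    rw [Fin.append_left, Finset.sum_eq_single (⟨j, (t j).succ⟩ : (k : Fin n) × Fin (m k + 1))]
    · rw [wT_castAdd, if_pos ⟨rfl, rfl⟩]
    · rintro ⟨k, e⟩ _ he
      rw [wT_castAdd, if_neg]
      rintro ⟨rfl, rfl⟩
      exact he rfl
    · intro h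
      exact absurd (Finset.mem_univ _) h
  · simp only [wT_natAdd]
    unfold om
    rw [Fin.append_right, Finset.sum_const_zero]

theorem RP_row_u (t i : (k : Fin n) → Fin (m k)) (k : Fin n) :
    RP q t i (Fin.castAdd q k).succ =
      (Fin.cons 0 fun j => wT (TP q t) (Sum.inl ⟨k, (i k).succ⟩) j -
      wT (TP q t) (Sum.inl ⟨k, 0⟩) j : Fin (n + q + 1) → ℝ) :=
  Fin.append_left (fun k : Fin n => (Fin.cons 0 fun j =>
      wT (TP q t) (Sum.inl ⟨k, (i k).succ⟩) j - wT (TP q t) (Sum.inl ⟨k, 0⟩) j :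
      Fin (n + q + 1) → ℝ))
    (fun l : Fin q => (Fin.cons 0 fun j => if j = Fin.natAdd n l then 1 else 0 :
      Fin (n + q + 1) → ℝ)) k

theorem RP_row_y (t i : (k : Fin n) → Fin (m k)) (l : Fin q) :
    RP q t i (Fin.natAdd n l).succ =
      (Fin.cons 0 fun j => if j = Fin.natAdd n l then 1 else 0 :
      Fin (n + q + 1) → ℝ) :=
  Fin.append_right (fun k : Fin n => (Fin.cons 0 fun j =>
      wT (TP q t) (Sum.inl ⟨k, (i k).succ⟩) j - wT (TP q t) (Sum.inl ⟨k, 0⟩) j :
      Fin (n + q + 1) → ℝ))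
    (fun l : Fin q => (Fin.cons 0 fun j => if j = Fin.natAdd n l then 1 else 0 :
      Fin (n + q + 1) → ℝ)) l

theorem det_RP (t i : (k : Fin n) → Fin (m k)) :
    (RP q t i).det = if t = i then 1 else 0 := by
  classical
  set M : Matrix (Fin (n + q)) (Fin (n + q)) ℝ := Matrix.of (Fin.append
    (fun k : Fin n => fun j => wT (TP q t) (Sum.inl ⟨k, (i k).succ⟩) j -
      wT (TP q t) (Sum.inl ⟨k, 0⟩) j)
    (fun l : Fin q => fun j => if j = Fin.natAdd n l then 1 else 0)) with hM
  have hrow1 := RP_row_u q t i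
  have hrow2 := RP_row_y q t i
  have h4 : (RP q t i).det = M.det := by
    rw [Matrix.det_succ_column_zero, Fin.sum_univ_succ]
    have h2 : ∀ k : Fin (n + q), RP q t i k.succ 0 = 0 := by
      intro k
      refine Fin.addCases (fun k => ?_) (fun k => ?_) k
      · rw [hrow1, Fin.cons_zero]
      · rw [hrow2, Fin.cons_zero]
    have h3 : RP q t i 0 0 = 1 := rfl
    simp only [h2, h3, mul_zero, zero_mul, Finset.sum_const_zero, add_zero, Fin.val_zero,
      pow_zero, mul_one, one_mul]
    congr 1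
    ext k j
    rw [Matrix.submatrix_apply, Fin.succAbove_zero]
    refine Fin.addCases (fun k => ?_) (fun k => ?_) k
    · rw [hrow1, Fin.cons_succ, hM, Matrix.of_apply, Fin.append_left]
    · rw [hrow2, Fin.cons_succ, hM, Matrix.of_apply, Fin.append_right]
  set A : Fin n → ℝ := fun k => if t k = i k then 1 else 0 with hA
  have h5 : M.submatrix finSumFinEquiv finSumFinEquiv =
      Matrix.fromBlocks (Matrix.diagonal A) 0 0 1 := by
    ext k j
    rw [Matrix.submatrix_apply]
    rcases k with k | k <;> rcases j with j | j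
    · rw [finSumFinEquiv_apply_left, finSumFinEquiv_apply_left, Matrix.fromBlocks_apply₁₁, hM,
        Matrix.of_apply, Fin.append_left, wT_castAdd, wT_castAdd, Matrix.diagonal_apply]
      rw [if_neg (show ¬(j = k ∧ (t k).succ = 0) from fun h => Fin.succ_ne_zero _ h.2), sub_zero]
      by_cases h : k = j
      · rw [if_pos h, hA]
        show _ = if t k = i k then (1 : ℝ) else 0
        by_cases h2 : t k = i k
        · rw [if_pos h2, if_pos ⟨h.symm, by rw [h2]⟩]
        · rw [if_neg h2, if_neg fun h3 => h2 (Fin.succ_injective _ h3.2)]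
      · rw [if_neg h, if_neg fun h3 => h h3.1.symm]
    · rw [finSumFinEquiv_apply_left, finSumFinEquiv_apply_right, Matrix.fromBlocks_apply₁₂, hM,
        Matrix.of_apply, Fin.append_left, wT_natAdd, wT_natAdd, sub_zero]
      rfl
    · rw [finSumFinEquiv_apply_left, finSumFinEquiv_apply_right, Matrix.fromBlocks_apply₂₁, hM,
        Matrix.of_apply, Fin.append_right, if_neg]
      · rfl
      · intro h
        have h6 := congrArg Fin.val h
        rw [Fin.val_castAdd, Fin.val_natAdd] at h6
        have h7 := j.isLt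
        omega
    · rw [finSumFinEquiv_apply_right, finSumFinEquiv_apply_right, Matrix.fromBlocks_apply₂₂, hM,
        Matrix.of_apply, Fin.append_right, Matrix.one_apply]
      by_cases h : k = j
      · rw [if_pos h, if_pos (by rw [h])]
      · rw [if_neg h, if_neg fun h' => h (Fin.natAdd_injective _ _ h').symm]
  rw [h4, ← Matrix.det_submatrix_equiv_self finSumFinEquiv M, h5, Matrix.det_fromBlocks_zero₂₁,
    Matrix.det_one, mul_one, Matrix.det_diagonal, hA]
  by_cases h : t = i
  · rw [if_pos h]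
    refine Finset.prod_eq_one fun k _ => ?_
    rw [if_pos (congrFun h k)]
  · rw [if_neg h]
    obtain ⟨k, hk⟩ := Function.ne_iff.1 h
    exact Finset.prod_eq_zero (Finset.mem_univ k) (if_neg hk)

end main

end Pool.Agent.TH690.PF
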