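import Pool.Agent.TH690.PF.Det
set_option autoImplicit false

/-!
The regulators of the symbols `{z, (x_1 - a_{1,i_1})/(x_1 - a_{1,0}), ..., y_1, ..., y_q}` on the
fibrations, for large `λ`.
-/

namespace Pool.Agent.TH690.PF

open Filter Topology

open Pool.Agent.TH826.MK

open Pool.Agent.TH826.GA

open Pool.Agent.TH826.SX (good_circ lw_circ det_ne_zero_near pairing_close)

open Pool.Agent.TH826.DC (wT)

open Pool.Agent.TH826.EF (norm_one_sub_ge abs_log_one_sub)

open Pool.Agent.TH690.SF (se he he_eq abs_log_norm_he good_he_comp norm_lw_he_comp good_pow lw_pow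
  good_one_sub_sum norm_lw_one_sub_sum)

section main

variable {K : Type*} [Field K] {n q : ℕ} {w : Fin q → ℕ} {m : Fin n → ℕ}
  {a : (k : Fin n) → Fin (m k + 1) → K}

theorem exists_torus (w : Fin q → ℕ) (σ : K →+* ℂ) (ha : ∀ k, Function.Injective (a k))
    (t : (k : Fin n) → Fin (m k)) {ε : ℝ} (hε : 0 < ε) :
    ∃ Λ : ℝ, 1 < Λ ∧ ∀ lam : K, Λ ≤ ‖σ lam‖ → ∃ Γ : Torus (POpen w (mPhi lam a)) (n + q),
      (∀ θ x, Γ.e θ (pcst w (mPhi lam a) x) = σ x) ∧
      ∀ i : (k : Fin n) → Fin (m k),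
        |Γ.reg (symb (pent w lam a i)) / Real.log ‖σ lam‖ -
          (2 * Real.pi) ^ (n + q) * (RP q t i).det| ≤ ε := by
  classical
  choose δ hδ hclose using fun i : (k : Fin n) → Fin (m k) => pairing_close (RP q t i) hε
  obtain ⟨S0, -, hS0⟩ := Finset.exists_min_image Finset.univ δ
    ⟨t, Finset.mem_univ _⟩
  set P : ℕ := Fintype.card ((k : Fin n) × Fin (m k + 1)) with hP
  set δ0 : ℝ := δ S0 / (P + 4) with hδ0
  have hm5 : (0 : ℝ) < P + 4 := by positivity
  have hδ0pos : 0 < δ0 := div_pos (hδ S0) hm5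
  have hδle : ∀ S, (P + 3) * δ0 < δ S := by
    intro S
    have h1 := hS0 S (Finset.mem_univ S)
    have h2 : δ S0 = (P + 4) * δ0 := by
      rw [hδ0]
      field_simp
    linarith
  have hm0 : (0 : ℝ) ≤ P := Nat.cast_nonneg P
  have hq0 : (0 : ℝ) ≤ q := Nat.cast_nonneg q
  obtain ⟨C1, ρ, hC1, hρ, hρ2, hWg, hWest⟩ := Pool.Agent.TH826.EF.exists_circles (T := TP q t)
    (H := HP q σ a t)
    (TP_injective q t)
    (fun e => by
      rcases e with e | i
      · exact ((contDiff_apply ℂ ℂ (Fin.castAdd q e.1)).add contDiff_const).sub contDiff_const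
      · exact contDiff_apply ℂ ℂ (Fin.natAdd n i))
    (fun j u => by
      refine Fin.addCases (fun j => ?_) (fun i => ?_) j
      · rw [TP_castAdd]
        show u (Fin.castAdd q j) + σ (a j (t j).succ) - σ (a j (t j).succ) = _
        ring
      · rw [TP_natAdd]
        rfl)
    (fun e he => by
      rcases e with ⟨k, e⟩ | i
      · show (0 : Fin (n + q) → ℂ) (Fin.castAdd q k) + σ (a k (t k).succ) - σ (a k e) ≠ 0
        rw [Pi.zero_apply, zero_add, sub_ne_zero]
        intro h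
        have h1 := ha k (σ.injective h)
        exact he (Fin.castAdd q k) (by rw [TP_castAdd, h1])
      · exact absurd (TP_natAdd q t i) (he (Fin.natAdd n i))) hδ0pos
  have hpi := Real.pi_pos
  have hnpi : ‖(2 * Real.pi * Complex.I : ℂ)‖ = 2 * Real.pi := by
    rw [norm_mul, norm_mul, Complex.norm_I, Complex.norm_real, Complex.norm_ofNat, mul_one,
      Real.norm_eq_abs, abs_of_pos Real.pi_pos]
  set E : ℝ := 2 * Real.pi + P * δ0 with hE
  have hE0 : 0 < E := by positivity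
  set w0 : ℕ := ∑ i, (w i + 1) with hw0
  set R : ℝ := (ρ ^ w0)⁻¹ with hR
  have hR0 : 0 < R := by positivity
  set N : ℝ := w0 * (2 * Real.pi) + 2 * (E + δ0) with hN
  have hN0 : 0 < N := by positivity
  set B : ℝ := 8 + 64 * R + 2 * q + 2 * q * (2 * Real.pi + E) / δ0 + 8 * R * N / δ0 with hB
  have hBa : 0 ≤ 2 * q * (2 * Real.pi + E) / δ0 := by positivity
  have hBb : 0 ≤ 8 * R * N / δ0 := by positivity
  have hB8 : 8 ≤ B := by
    rw [hB]
    linarith
  have hBR : 64 * R ≤ B := by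
    rw [hB]
    linarith
  have hBq : 2 * q ≤ B := by
    rw [hB]
    linarith
  have hBpos : 0 < B := by linarith
  have hBE : 2 * (4 * R / B ^ 2) * N ≤ δ0 := by
    have h1 : 8 * R * N / δ0 ≤ B := by
      rw [hB]
      linarith
    rw [div_le_iff₀ hδ0pos] at h1
    have h2 : 2 * (4 * R / B ^ 2) * N = 8 * R * N / B ^ 2 := by ring
    rw [h2, div_le_iff₀ (by positivity)]
    have h3 : B * δ0 * 1 ≤ B * δ0 * B := mul_le_mul_of_nonneg_left (by linarith) (by positivity)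
    nlinarith
  have hBe : 4 * R / B ^ 2 ≤ 1 / 16 := by
    rw [div_le_div_iff₀ (by positivity) (by norm_num)]
    nlinarith
  have hBk : 2 * (q * (1 / B * (2 * Real.pi + E))) ≤ δ0 := by
    have h1 : 2 * q * (2 * Real.pi + E) / δ0 ≤ B := by
      rw [hB]
      linarith
    rw [div_le_iff₀ hδ0pos] at h1
    have h2 : 2 * (q * (1 / B * (2 * Real.pi + E))) = 2 * q * (2 * Real.pi + E) / B := by ring
    rw [h2, div_le_iff₀ hBpos]
    linarith
  have hlogB : 0 ≤ Real.log B := Real.log_nonneg (by linarith)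
  set M : ℝ := P * C1 + Real.log B + (P * C1 + 2) / δ0 + C1 / δ0 + 1 with hM
  have hM1 : 0 ≤ (P * C1 + 2) / δ0 := by positivity
  have hM2 : 0 ≤ C1 / δ0 := by positivity
  have hM3 : 0 ≤ P * C1 := by positivity
  refine ⟨Real.exp M + 1, by linarith [Real.exp_pos M], fun lam hlam => ?_⟩
  have hln : 0 < ‖σ lam‖ := by linarith [Real.exp_pos M]
  have hl0 : σ lam ≠ 0 := norm_pos_iff.1 hln
  set s : ℝ := Real.log ‖σ lam‖ with hsdef
  have hsM : M ≤ s := by
    rw [hsdef, Real.le_log_iff_exp_le hln]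
    linarith
  have hspos : 0 < s := by linarith
  have hs0 : s ≠ 0 := hspos.ne'
  set W : (Fin (n + q) → ℝ) → (Fin (n + q) → ℂ) := fun θ k => circ ρ (θ k) with hW
  have hWc : ContDiff ℝ 2 W := contDiff_pi.2 fun k => (good_circ hρ k).smooth
  have hWp : ∀ θ i, W (θ + Pi.single i 1) = W θ := fun θ i =>
    tpt_add_single (fun _ => ρ) θ i
  set X : (Fin (n + q) → ℝ) → (Fin n → ℂ) := fun θ k =>
    W θ (Fin.castAdd q k) + σ (a k (t k).succ) with hXdef
  have hXc : ContDiff ℝ 2 X :=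
    contDiff_pi.2 fun k : Fin n => (contDiff_pi.1 hWc (Fin.castAdd q k)).add contDiff_const
  have hXp : ∀ θ i, X (θ + Pi.single i 1) = X θ := fun θ i => by
    simp only [hXdef, hWp]
  set y : (Fin (n + q) → ℝ) → (Fin q → ℂ) := fun θ i => W θ (Fin.natAdd n i) with hy
  have hyc : ContDiff ℝ 2 y :=
    contDiff_pi.2 fun i : Fin q => contDiff_pi.1 hWc (Fin.natAdd n i)
  have hyp : ∀ θ i, y (θ + Pi.single i 1) = y θ := fun θ i => by
    simp only [hy, hWp]
  have hyg : ∀ i, Good fun θ => y θ i := fun i => good_circ hρ (Fin.natAdd n i)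
  have hny : ∀ θ i, ‖y θ i‖ = ρ := fun θ i => norm_circ hρ.le _
  have hlwy : ∀ i j θ, lw (fun θ => y θ i) j θ =
      if j = Fin.natAdd n i then 2 * Real.pi * Complex.I else 0 := fun i j θ =>
    lw_circ hρ (Fin.natAdd n i) j θ
  have hnlwy : ∀ i j θ, ‖lw (fun θ => y θ i) j θ‖ ≤ 2 * Real.pi := by
    intro i j θ
    rw [hlwy]
    split_ifs
    · exact hnpi.le
    · rw [norm_zero]
      positivity
  set lc : ((k : Fin n) × Fin (m k + 1)) → (Fin (n + q) → ℝ) → ℂ := fun e θ =>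
    X θ e.1 - σ (a e.1 e.2) with hlc
  have hg : ∀ e, Good (lc e) := fun e => hWg (Sum.inl e)
  have hlogH : ∀ e θ, |Real.log ‖lc e θ‖| ≤ C1 := fun e θ => (hWest (Sum.inl e) θ).1
  have hlwH : ∀ e θ j, ‖lw (lc e) j θ -
      2 * Real.pi * Complex.I * wT (TP q t) (Sum.inl e) j‖ ≤ δ0 := fun e θ j =>
    (hWest (Sum.inl e) θ).2 j
  have hlogy : ∀ i θ, |Real.log ‖y θ i‖| ≤ C1 := fun i θ => (hWest (Sum.inr i) θ).1
  -- the function `Φ`
  have hgprod : Good fun θ => ∏ e, lc e θ := good_prod Finset.univ hg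
  have hFg : Good fun θ => σ lam * ∏ e, lc e θ := (good_const hl0).mul hgprod
  set F : (Fin (n + q) → ℝ) → ℂ := fun θ => σ lam * ∏ e, lc e θ with hF
  have hFeq : ∀ θ, MvPolynomial.eval₂ σ (X θ) (mPhi lam a) = F θ := fun θ => by
    rw [eval_mPhi]
  have hlogF : ∀ θ, |Real.log ‖F θ‖ - s| ≤ P * C1 := by
    intro θ
    have h1 : Real.log ‖F θ‖ = s + ∑ e, Real.log ‖lc e θ‖ := by
      have h2 : ‖F θ‖ = ‖σ lam‖ * ∏ e, ‖lc e θ‖ := by
        simp only [hF]
        rw [norm_mul, norm_prod]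
      rw [h2, Real.log_mul hln.ne' (Finset.prod_ne_zero_iff.2 fun e _ =>
        norm_ne_zero_iff.2 ((hg e).ne_zero θ)), Real.log_prod fun e _ =>
        norm_ne_zero_iff.2 ((hg e).ne_zero θ)]
    rw [h1, add_sub_cancel_left]
    refine (Finset.abs_sum_le_sum_abs _ _).trans ?_
    refine (Finset.sum_le_sum fun e _ => hlogH e θ).trans ?_
    rw [Finset.sum_const, Finset.card_univ, nsmul_eq_mul]
  have hFB : ∀ θ, B ≤ ‖F θ‖ := by
    intro θ
    have h1 := abs_le.1 (hlogF θ)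
    have h2 : Real.log B ≤ Real.log ‖F θ‖ := by linarith [h1.1]
    exact (Real.log_le_log_iff (by linarith) (norm_pos_iff.2 (hFg.ne_zero θ))).1 h2
  have hlwF : ∀ j θ, ‖lw F j θ - 2 * Real.pi * Complex.I * om n q j‖ ≤ P * δ0 := by
    intro j θ
    have h1 : lw F j θ = ∑ e, lw (lc e) j θ := by
      have h2 := lw_mul (good_const (d := n + q) hl0) hgprod j θ
      rw [lw_const, zero_add, lw_prod Finset.univ hg] at h2
      exact h2
    have h3 : (2 * Real.pi * Complex.I * om n q j : ℂ) =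
        ∑ e, 2 * Real.pi * Complex.I * ((wT (TP q t) (Sum.inl e) j : ℝ) : ℂ) := by
      rw [← Finset.mul_sum, ← sum_wT q t j]
      push_cast
      rfl
    rw [h1, h3, ← Finset.sum_sub_distrib]
    refine (norm_sum_le _ _).trans ?_
    refine (Finset.sum_le_sum fun e _ => hlwH e θ j).trans ?_
    rw [Finset.sum_const, Finset.card_univ, nsmul_eq_mul]
  have hnlwF : ∀ j θ, ‖lw F j θ‖ ≤ E := by
    intro j θ
    have h1 := norm_sub_norm_le (lw F j θ) (2 * Real.pi * Complex.I * om n q j)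
    have h2 : ‖(2 * Real.pi * Complex.I * om n q j : ℂ)‖ ≤ 2 * Real.pi := by
      revert j
      intro j _
      unfold om
      refine Fin.addCases (fun j => ?_) (fun i => ?_) j
      · rw [Fin.append_left, Complex.ofReal_one, mul_one]
        exact hnpi.le
      · rw [Fin.append_right, Complex.ofReal_zero, mul_zero, norm_zero]
        positivity
    have h3 := hlwF j θ
    rw [hE]
    linarith
  -- the functions `κ_i = y_i / Φ`
  have hFi : Good fun θ => (F θ)⁻¹ :=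
    ⟨hFg.smooth.inv hFg.ne_zero, fun θ => inv_ne_zero (hFg.ne_zero θ)⟩
  have hlwFi : ∀ j θ, lw (fun θ => (F θ)⁻¹) j θ = -lw F j θ := by
    intro j θ
    have h1 := lw_mul hFg hFi j θ
    have h2 : (fun θ => F θ * (F θ)⁻¹) = fun _ => 1 := by
      funext θ
      exact mul_inv_cancel₀ (hFg.ne_zero θ)
    rw [h2, lw_const] at h1
    linear_combination -h1
  set κ : Fin q → (Fin (n + q) → ℝ) → ℂ := fun i θ => y θ i * (F θ)⁻¹ with hκ
  have hκg : ∀ i, Good (κ i) := fun i => (hyg i).mul hFi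
  have hnκ : ∀ i θ, ‖κ i θ‖ ≤ 1 / B := by
    intro i θ
    simp only [hκ]
    rw [norm_mul, norm_inv, ← div_eq_mul_inv, hny]
    exact div_le_div₀ (by norm_num) (by linarith) hBpos (hFB θ)
  have hκ2 : ∀ θ, ‖∑ i, κ i θ‖ ≤ 1 / 2 := by
    intro θ
    refine (norm_sum_le _ _).trans ?_
    refine (Finset.sum_le_sum fun i _ => hnκ i θ).trans ?_
    rw [Finset.sum_const, Finset.card_univ, Fintype.card_fin, nsmul_eq_mul, mul_one_div,
      div_le_div_iff₀ hBpos (by norm_num)]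
    linarith
  have hlwκ : ∀ i j θ, ‖lw (κ i) j θ‖ ≤ 2 * Real.pi + E := by
    intro i j θ
    have h1 : lw (κ i) j θ = lw (fun θ => y θ i) j θ + lw (fun θ => (F θ)⁻¹) j θ :=
      lw_mul (hyg i) hFi j θ
    rw [h1, hlwFi]
    refine (norm_add_le _ _).trans ?_
    rw [norm_neg]
    exact add_le_add (hnlwy i j θ) (hnlwF j θ)
  have hκsg := good_one_sub_sum hκg hκ2
  have hlwκs : ∀ j θ, ‖lw (fun θ => 1 - ∑ i, κ i θ) j θ‖ ≤ δ0 := by
    intro j θ
    refine (norm_lw_one_sub_sum hκg hκ2 j θ).trans (le_trans ?_ hBk)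
    refine mul_le_mul_of_nonneg_left ?_ (by norm_num)
    have h1 : ∀ i ∈ Finset.univ, ‖κ i θ‖ * ‖lw (κ i) j θ‖ ≤ 1 / B * (2 * Real.pi + E) :=
      fun i _ => mul_le_mul (hnκ i θ) (hlwκ i j θ) (norm_nonneg _) (by positivity)
    refine (Finset.sum_le_sum h1).trans ?_
    rw [Finset.sum_const, Finset.card_univ, Fintype.card_fin, nsmul_eq_mul]
  -- the function `Ψ = Φ - ∑ y_i`
  have hΨg : Good fun θ => F θ * (1 - ∑ i, κ i θ) := hFg.mul hκsg
  set Ψ : (Fin (n + q) → ℝ) → ℂ := fun θ => F θ * (1 - ∑ i, κ i θ) with hΨ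
  have hΨeq : ∀ θ, Ψ θ = F θ - ∑ i, y θ i := by
    intro θ
    have h0 := hFg.ne_zero θ
    simp only [hΨ, hκ]
    rw [mul_sub, mul_one, ← Finset.sum_mul]
    have h1 : F θ * ((∑ i, y θ i) * (F θ)⁻¹) = ∑ i, y θ i := by
      field_simp
    rw [h1]
  have hlogΨ : ∀ θ, |Real.log ‖Ψ θ‖ - s| ≤ P * C1 + 1 := by
    intro θ
    have h1 : Real.log ‖Ψ θ‖ = Real.log ‖F θ‖ + Real.log ‖1 - ∑ i, κ i θ‖ := by
      simp only [hΨ]
      rw [norm_mul, Real.log_mul (norm_ne_zero_iff.2 (hFg.ne_zero θ))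
        (norm_ne_zero_iff.2 (hκsg.ne_zero θ))]
    have h2 := hlogF θ
    have h3 := abs_log_one_sub (hκ2 θ)
    rw [h1]
    have h4 : Real.log ‖F θ‖ + Real.log ‖1 - ∑ i, κ i θ‖ - s =
        (Real.log ‖F θ‖ - s) + Real.log ‖1 - ∑ i, κ i θ‖ := by ring
    rw [h4]
    exact (abs_add_le _ _).trans (add_le_add h2 h3)
  have hΨB : ∀ θ, B / 2 ≤ ‖Ψ θ‖ := by
    intro θ
    simp only [hΨ]
    rw [norm_mul]
    have h1 := hFB θ
    have h2 := norm_one_sub_ge (hκ2 θ)
    calc B / 2 = B * (1 / 2) := by ring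
      _ ≤ _ := mul_le_mul h1 h2 (by norm_num) (norm_nonneg _)
  have hlwΨ : ∀ j θ, ‖lw Ψ j θ - 2 * Real.pi * Complex.I * om n q j‖ ≤ (P + 1) * δ0 := by
    intro j θ
    have h1 : lw Ψ j θ = lw F j θ + lw (fun θ => 1 - ∑ i, κ i θ) j θ := lw_mul hFg hκsg j θ
    rw [h1]
    have h2 : lw F j θ + lw (fun θ => 1 - ∑ i, κ i θ) j θ - 2 * Real.pi * Complex.I * om n q j =
        (lw F j θ - 2 * Real.pi * Complex.I * om n q j) +
          lw (fun θ => 1 - ∑ i, κ i θ) j θ := by ring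
    rw [h2]
    refine (norm_add_le _ _).trans ?_
    have h3 := hlwF j θ
    have h4 := hlwκs j θ
    linarith
  have hnlwΨ : ∀ j θ, ‖lw Ψ j θ‖ ≤ E + δ0 := by
    intro j θ
    have h1 : lw Ψ j θ = lw F j θ + lw (fun θ => 1 - ∑ i, κ i θ) j θ := lw_mul hFg hκsg j θ
    rw [h1]
    exact (norm_add_le _ _).trans (add_le_add (hnlwF j θ) (hlwκs j θ))
  -- the function `η = 1 / (Y Ψ²)`
  have hypg : ∀ i, Good fun θ => y θ i ^ (w i + 1) := fun i => good_pow (hyg i) _
  have hYg : Good fun θ => ∏ i, y θ i ^ (w i + 1) := good_prod Finset.univ hypg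
  have hYΨg : Good fun θ => (∏ i, y θ i ^ (w i + 1)) * (Ψ θ * Ψ θ) := hYg.mul (hΨg.mul hΨg)
  set η : (Fin (n + q) → ℝ) → ℂ :=
    fun θ => ((∏ i, y θ i ^ (w i + 1)) * (Ψ θ * Ψ θ))⁻¹ with hη
  have hηg : Good η :=
    ⟨hYΨg.smooth.inv hYΨg.ne_zero, fun θ => inv_ne_zero (hYΨg.ne_zero θ)⟩
  have hlwη : ∀ j θ, ‖lw η j θ‖ ≤ N := by
    intro j θ
    have h1 := lw_mul hYΨg hηg j θ
    have h2 : (fun θ => ((∏ i, y θ i ^ (w i + 1)) * (Ψ θ * Ψ θ)) * η θ) = fun _ => 1 := by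
      funext θ
      exact mul_inv_cancel₀ (hYΨg.ne_zero θ)
    rw [h2, lw_const, lw_mul hYg (hΨg.mul hΨg), lw_mul hΨg hΨg, lw_prod Finset.univ hypg] at h1
    have h3 : lw η j θ = -(∑ i, lw (fun θ => y θ i ^ (w i + 1)) j θ +
        (lw Ψ j θ + lw Ψ j θ)) := by
      linear_combination -h1
    rw [h3, norm_neg]
    refine (norm_add_le _ _).trans ?_
    have h4 : ‖∑ i, lw (fun θ => y θ i ^ (w i + 1)) j θ‖ ≤ w0 * (2 * Real.pi) := by
      refine (norm_sum_le _ _).trans ?_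
      rw [hw0, Nat.cast_sum, Finset.sum_mul]
      refine Finset.sum_le_sum fun i _ => ?_
      rw [lw_pow (hyg i), norm_mul, Complex.norm_natCast]
      exact mul_le_mul_of_nonneg_left (hnlwy i j θ) (Nat.cast_nonneg _)
    have h5 : ‖lw Ψ j θ + lw Ψ j θ‖ ≤ 2 * (E + δ0) := by
      refine (norm_add_le _ _).trans ?_
      linarith [hnlwΨ j θ]
    rw [hN]
    linarith
  have hnη : ∀ θ, ‖η θ‖ ≤ 4 * R / B ^ 2 := by
    intro θ
    simp only [hη]
    rw [norm_inv, norm_mul, norm_mul, norm_prod]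
    simp only [norm_pow, hny]
    rw [Finset.prod_pow_eq_pow_sum, ← hw0]
    have h1 := hΨB θ
    have h2 : 0 < ρ ^ w0 := pow_pos hρ w0
    have h3 : (B / 2) * (B / 2) ≤ ‖Ψ θ‖ * ‖Ψ θ‖ :=
      mul_le_mul h1 h1 (by positivity) (norm_nonneg _)
    have h4 : ρ ^ w0 * ((B / 2) * (B / 2)) ≤ ρ ^ w0 * (‖Ψ θ‖ * ‖Ψ θ‖) :=
      mul_le_mul_of_nonneg_left h3 h2.le
    have h5 := inv_anti₀ (by positivity) h4
    refine h5.trans (le_of_eq ?_)
    rw [hR]
    field_simp
    norm_num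
  have hη16 : ∀ θ, ‖η θ‖ ≤ 1 / 16 := fun θ => (hnη θ).trans hBe
  have hhg := good_he_comp hηg hη16
  have hlwh : ∀ j θ, ‖lw (fun θ => he (η θ)) j θ‖ ≤ δ0 := by
    intro j θ
    refine (norm_lw_he_comp hηg hη16 j θ).trans (le_trans ?_ hBE)
    refine mul_le_mul ?_ (hlwη j θ) (norm_nonneg _) (by positivity)
    linarith [hnη θ]
  -- the function `z`
  have hzg : Good fun θ => Ψ θ * he (η θ) := hΨg.mul hhg
  set z : (Fin (n + q) → ℝ) → ℂ := fun θ => Ψ θ * he (η θ) with hz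
  have hzp : ∀ θ i, z (θ + Pi.single i 1) = z θ := by
    intro θ i
    have h1 : Ψ (θ + Pi.single i 1) = Ψ θ := by
      rw [hΨeq, hΨeq, ← hFeq, ← hFeq, hXp, hyp]
    have h2 : η (θ + Pi.single i 1) = η θ := by
      simp only [hη]
      rw [h1, hyp]
    simp only [hz]
    rw [h1, h2]
  have hPt : ∀ θ, PPt w σ (mPhi lam a) (X θ) (y θ) (z θ) := by
    intro θ
    refine ⟨?_, by rw [hFeq]; exact hFg.ne_zero θ⟩
    have h1 : ∑ i, y θ i - MvPolynomial.eval₂ σ (X θ) (mPhi lam a) = -Ψ θ := by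
      rw [hFeq, hΨeq]
      ring
    rw [h1]
    have h2 := he_eq (hη16 θ)
    have h3 : (∏ i, y θ i ^ (w i + 1)) * (Ψ θ * Ψ θ) * η θ = 1 :=
      mul_inv_cancel₀ (hYΨg.ne_zero θ)
    simp only [hz]
    linear_combination ((∏ i, y θ i ^ (w i + 1)) * (Ψ θ * Ψ θ)) * h2 - h3
  refine ⟨mkP X y z hXc hyc hzg.smooth hXp hyp hzp hPt, fun θ x => (hPt θ).evA_pcst x,
    fun S => ?_⟩
  rw [Torus.reg_symb]
  set Γ := mkP X y z hXc hyc hzg.smooth hXp hyp hzp hPt with hΓ
  have hgz : ∀ e, Γ.fn (ux w lam a e : POpen w (mPhi lam a)) = lc e := fun e =>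
    mkP_ux X y z hXc hyc hzg.smooth hXp hyp hzp hPt e
  have hgoodZ : ∀ e, Good (Γ.fn (ux w lam a e : POpen w (mPhi lam a))) := fun e => Γ.good _
  have hgoodE : ∀ l, Good (Γ.fn (pent w lam a S l : POpen w (mPhi lam a))) := fun l => Γ.good _
  -- estimates for the `x_k - a_{k,i}`
  have hZlog : ∀ e θ, |Real.log ‖Γ.fn (ux w lam a e : POpen w (mPhi lam a)) θ‖ / s| ≤ δ0 := by
    intro e θ
    rw [congrFun (hgz e) θ, abs_div, abs_of_pos hspos, div_le_iff₀ hspos]
    have h2 := hlogH e θ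
    have h3 : C1 / δ0 ≤ s := by linarith
    rw [div_le_iff₀ hδ0pos] at h3
    linarith
  have hZlw : ∀ e j θ, ‖lw (Γ.fn (ux w lam a e : POpen w (mPhi lam a))) j θ -
      2 * Real.pi * Complex.I * wT (TP q t) (Sum.inl e) j‖ ≤ δ0 := by
    intro e j θ
    rw [hgz e]
    exact hlwH e θ j
  have hsu : ∀ k : Fin n, pent w lam a S (Fin.castAdd q k).succ =
      ux w lam a ⟨k, (S k).succ⟩ / ux w lam a ⟨k, 0⟩ := by
    intro k
    unfold pent
    rw [Fin.cons_succ, Fin.append_left]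
  have hsy : ∀ i : Fin q, pent w lam a S (Fin.natAdd n i).succ = uy w (mPhi lam a) i := by
    intro i
    unfold pent
    rw [Fin.cons_succ, Fin.append_right]
  have hmul : ∀ l : Fin n,
      (fun θ => Γ.fn (pent w lam a S (Fin.castAdd q l).succ : POpen w (mPhi lam a)) θ *
      Γ.fn (ux w lam a ⟨l, 0⟩ : POpen w (mPhi lam a)) θ) =
        Γ.fn (ux w lam a ⟨l, (S l).succ⟩ : POpen w (mPhi lam a)) := by
    intro l
    funext θ
    unfold Torus.fn
    rw [← map_mul, ← Units.val_mul, hsu, div_mul_cancel]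
  have hzfn : Γ.fn (pent w lam a S 0 : POpen w (mPhi lam a)) = fun θ => Ψ θ * he (η θ) :=
    mkP_uz X y z hXc hyc hzg.smooth hXp hyp hzp hPt
  have hyfn : ∀ i : Fin q, Γ.fn (pent w lam a S (Fin.natAdd n i).succ :
      POpen w (mPhi lam a)) = fun θ => y θ i := by
    intro i
    rw [hsy]
    exact mkP_uy X y z hXc hyc hzg.smooth hXp hyp hzp hPt i
  refine hclose S _ _ hs0 hgoodE (fun l θ => ?_) (fun l j θ => ?_)
  · revert l
    refine Fin.cases ?_ (fun l => ?_)
    · have e : RP q t S 0 0 = 1 := rfl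
      rw [e, congrFun hzfn θ, norm_mul, Real.log_mul (norm_ne_zero_iff.2 (hΨg.ne_zero θ))
        (norm_ne_zero_iff.2 (hhg.ne_zero θ))]
      have h1 := hlogΨ θ
      have h2 : |Real.log ‖he (η θ)‖| ≤ 1 := abs_log_norm_he (hη16 θ)
      have h3 : (P * C1 + 2) / δ0 ≤ s := by linarith
      rw [div_le_iff₀ hδ0pos] at h3
      have h4 : (Real.log ‖Ψ θ‖ + Real.log ‖he (η θ)‖) / s - 1 =
          ((Real.log ‖Ψ θ‖ - s) + Real.log ‖he (η θ)‖) / s := by
        field_simp
        ring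
      rw [h4, abs_div, abs_of_pos hspos]
      have h5 : |(Real.log ‖Ψ θ‖ - s) + Real.log ‖he (η θ)‖| / s ≤ δ0 := by
        rw [div_le_iff₀ hspos]
        refine (abs_add_le _ _).trans ?_
        linarith
      have h6 := hδle S
      nlinarith
    · refine Fin.addCases (fun l => ?_) (fun i => ?_) l
      · have h1 := hZlog ⟨l, (S l).succ⟩ θ
        have h2 := hZlog ⟨l, 0⟩ θ
        have h3 : Real.log ‖Γ.fn (pent w lam a S (Fin.castAdd q l).succ : POpen w (mPhi lam a)) θ *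
            Γ.fn (ux w lam a ⟨l, 0⟩ : POpen w (mPhi lam a)) θ‖ =
            Real.log ‖Γ.fn (ux w lam a ⟨l, (S l).succ⟩ : POpen w (mPhi lam a)) θ‖ :=
          congrArg (fun z : ℂ => Real.log ‖z‖) (congrFun (hmul l) θ)
        rw [norm_mul, Real.log_mul
          (norm_ne_zero_iff.2 ((hgoodE (Fin.castAdd q l).succ).ne_zero θ))
          (norm_ne_zero_iff.2 ((hgoodZ ⟨l, 0⟩).ne_zero θ))] at h3
        have h4 : Real.log ‖Γ.fn (pent w lam a S (Fin.castAdd q l).succ :
            POpen w (mPhi lam a)) θ‖ =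
            Real.log ‖Γ.fn (ux w lam a ⟨l, (S l).succ⟩ : POpen w (mPhi lam a)) θ‖ -
            Real.log ‖Γ.fn (ux w lam a ⟨l, 0⟩ : POpen w (mPhi lam a)) θ‖ := by
          linarith
        have e : RP q t S (Fin.castAdd q l).succ 0 = 0 := by
          rw [RP_row_u, Fin.cons_zero]
        rw [h4, sub_div, e, sub_zero]
        refine lt_of_le_of_lt ?_ (hδle S)
        have h5 := abs_le.1 h1
        have h6 := abs_le.1 h2
        have h7 : 2 * δ0 ≤ (P + 3) * δ0 := mul_le_mul_of_nonneg_right (by linarith) hδ0pos.le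
        rw [abs_le]
        constructor <;> linarith [h5.1, h5.2, h6.1, h6.2]
      · have e : RP q t S (Fin.natAdd n i).succ 0 = 0 := by
          rw [RP_row_y, Fin.cons_zero]
        rw [e, sub_zero, congrFun (hyfn i) θ, abs_div, abs_of_pos hspos]
        refine lt_of_le_of_lt ?_ (hδle S)
        have h1 := hlogy i θ
        have h3 : C1 / δ0 ≤ s := by linarith
        rw [div_le_iff₀ hδ0pos] at h3
        have h4 : |Real.log ‖y θ i‖| / s ≤ δ0 := by
          rw [div_le_iff₀ hspos]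
          linarith
        nlinarith
  · revert l
    refine Fin.cases ?_ (fun l => ?_)
    · have e : RP q t S 0 j.succ = om n q j := rfl
      rw [e, hzfn, lw_mul hΨg hhg]
      have h1 := hlwΨ j θ
      have h2 := hlwh j θ
      have h3 : lw Ψ j θ + lw (fun θ => he (η θ)) j θ - 2 * Real.pi * Complex.I * om n q j =
          (lw Ψ j θ - 2 * Real.pi * Complex.I * om n q j) + lw (fun θ => he (η θ)) j θ := by ring
      rw [h3]
      refine lt_of_le_of_lt ((norm_add_le _ _).trans (add_le_add h1 h2)) ?_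
      have h4 := hδle S
      nlinarith
    · refine Fin.addCases (fun l => ?_) (fun i => ?_) l
      · have h1 := hZlw ⟨l, (S l).succ⟩ j θ
        have h2 := hZlw ⟨l, 0⟩ j θ
        have h3 := lw_mul (hgoodE (Fin.castAdd q l).succ) (hgoodZ ⟨l, 0⟩) j θ
        rw [hmul l] at h3
        have h4 : lw (Γ.fn (pent w lam a S (Fin.castAdd q l).succ : POpen w (mPhi lam a))) j θ =
            lw (Γ.fn (ux w lam a ⟨l, (S l).succ⟩ : POpen w (mPhi lam a))) j θ -
            lw (Γ.fn (ux w lam a ⟨l, 0⟩ : POpen w (mPhi lam a))) j θ := by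
          rw [h3]
          ring
        have e : RP q t S (Fin.castAdd q l).succ j.succ =
            wT (TP q t) (Sum.inl ⟨l, (S l).succ⟩) j - wT (TP q t) (Sum.inl ⟨l, 0⟩) j := by
          rw [RP_row_u, Fin.cons_succ]
        rw [h4, e]
        refine lt_of_le_of_lt ?_ (hδle S)
        have e2 : lw (Γ.fn (ux w lam a ⟨l, (S l).succ⟩ : POpen w (mPhi lam a))) j θ -
            lw (Γ.fn (ux w lam a ⟨l, 0⟩ : POpen w (mPhi lam a))) j θ - 2 * Real.pi * Complex.I *
              ((wT (TP q t) (Sum.inl ⟨l, (S l).succ⟩) j - wT (TP q t) (Sum.inl ⟨l, 0⟩) j : ℝ) : ℂ) =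
            (lw (Γ.fn (ux w lam a ⟨l, (S l).succ⟩ : POpen w (mPhi lam a))) j θ -
              2 * Real.pi * Complex.I * wT (TP q t) (Sum.inl ⟨l, (S l).succ⟩) j) -
            (lw (Γ.fn (ux w lam a ⟨l, 0⟩ : POpen w (mPhi lam a))) j θ -
              2 * Real.pi * Complex.I * wT (TP q t) (Sum.inl ⟨l, 0⟩) j) := by
          push_cast
          ring
        rw [e2]
        refine (norm_sub_le _ _).trans ?_
        have h7 : 2 * δ0 ≤ (P + 3) * δ0 := mul_le_mul_of_nonneg_right (by linarith) hδ0pos.le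
        linarith
      · have e : RP q t S (Fin.natAdd n i).succ j.succ =
            if j = Fin.natAdd n i then 1 else 0 := by
          rw [RP_row_y, Fin.cons_succ]
        have h0 : lw (fun θ => y θ i) j θ - 2 * Real.pi * Complex.I *
            ((if j = Fin.natAdd n i then 1 else 0 : ℝ) : ℂ) = 0 := by
          rw [hlwy]
          split_ifs <;> simp
        rw [e, hyfn, h0, norm_zero]
        exact hδ S

theorem exists_tori {q : ℕ} (w : Fin q → ℕ) (σ : K →+* ℂ)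
    (ha : ∀ k, Function.Injective (a k)) :
    ∃ C : ℝ, 1 ≤ C ∧ ∀ lam : K, C ≤ ‖σ lam‖ →
      ∃ Γ : ((k : Fin n) → Fin (m k)) → Torus (POpen w (mPhi lam a)) (n + q),
        (∀ t θ x, (Γ t).e θ (pcst w (mPhi lam a) x) = σ x) ∧
        (Matrix.of fun t i : (k : Fin n) → Fin (m k) =>
          (Γ t).reg (symb (pent w lam a i))).det ≠ 0 := by
  classical
  set D0 : ℝ := (2 * Real.pi) ^ (n + q) with hD0
  have hD : D0 ≠ 0 := by
    have := Real.pi_pos
    positivity
  have hlead : (D0 • (1 : Matrix ((k : Fin n) → Fin (m k)) ((k : Fin n) → Fin (m k)) ℝ)).det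
      ≠ 0 := by
    rw [Matrix.det_smul, Matrix.det_one, mul_one]
    exact pow_ne_zero _ hD
  obtain ⟨δ, hδ, hdet'⟩ := det_ne_zero_near _ hlead
  choose Λ hΛ1 hΛ using fun t : (k : Fin n) → Fin (m k) =>
    exists_torus w σ ha t (ε := δ / 2) (by linarith)
  set C : ℝ := ∑ t, |Λ t| + 2 with hC
  have hsum : 0 ≤ ∑ t, |Λ t| := Finset.sum_nonneg fun J _ => abs_nonneg _
  have hΛC : ∀ t, Λ t ≤ C := by
    intro t
    have h1 := Finset.single_le_sum (f := fun t => |Λ t|) (fun t _ => abs_nonneg _)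
      (Finset.mem_univ t)
    have h2 := le_abs_self (Λ t)
    have h3 : |Λ t| ≤ ∑ t, |Λ t| := h1
    linarith
  refine ⟨C, by linarith, fun lam hlam => ?_⟩
  choose Γ hΓ1 hΓ2 using fun t => hΛ t lam ((hΛC t).trans hlam)
  refine ⟨Γ, hΓ1, ?_⟩
  have hs : Real.log ‖σ lam‖ ≠ 0 := by
    have : 0 < Real.log ‖σ lam‖ := Real.log_pos (by linarith)
    linarith
  set s : ℝ := Real.log ‖σ lam‖ with hsdef
  have h1 : (Matrix.of fun t i : (k : Fin n) → Fin (m k) =>
      (Γ t).reg (symb (pent w lam a i)) / s).det ≠ 0 := by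
    refine hdet' _ fun t i => ?_
    rw [Matrix.of_apply, Matrix.smul_apply, Matrix.one_apply, smul_eq_mul]
    refine lt_of_le_of_lt ?_ (show δ / 2 < δ by linarith)
    have h2 := hΓ2 t i
    rwa [det_RP] at h2
  have h2 : (Matrix.of fun t i : (k : Fin n) → Fin (m k) =>
      (Γ t).reg (symb (pent w lam a i))) =
      s • (Matrix.of fun t i : (k : Fin n) → Fin (m k) =>
        (Γ t).reg (symb (pent w lam a i)) / s) := by
    ext t i
    rw [Matrix.smul_apply, Matrix.of_apply, Matrix.of_apply, smul_eq_mul]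
    field_simp
  rw [h2, Matrix.det_smul]
  exact mul_ne_zero (pow_ne_zero _ hs) h1

end main

end Pool.Agent.TH690.PF
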