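import Pool.Agent.TH690.SF.Ring
set_option autoImplicit false

/-!
The fibrations `z + y_1 + ... + y_q + 1/(z y_1 ^ (w_1 + 1) ... y_q ^ (w_q + 1)) = Φ(x)` over the affine
space for a polynomial `Φ`, the polynomials `Φ = λ ∏_k ∏_i (x_k - a_{k,i})`, and the symbols
`{z, (x_1 - a_{1,i_1})/(x_1 - a_{1,0}), ..., (x_n - a_{n,i_n})/(x_n - a_{n,0}), y_1, ..., y_q}`.
-/

namespace Pool.Agent.TH690.PF

open scoped WithZero

open Pool.Agent.TH826.MK (KQ symb Unramified unitPart)

open Pool.Agent.TH826.EF (irreducible_quad)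

open Pool.Agent.TH690.SF (irreducible_of_map)

section Ring

/-- The product `y_1 ^ (w_1 + 1) ... y_q ^ (w_q + 1)`. -/
noncomputable def pY (K : Type*) [Field K] (n : ℕ) {q : ℕ} (w : Fin q → ℕ) :
    MvPolynomial (Fin n ⊕ Fin q) K :=
  ∏ i : Fin q, MvPolynomial.X (Sum.inr i) ^ (w i + 1)

/-- The sum `y_1 + ... + y_q`. -/
noncomputable def pS (K : Type*) [Field K] (n q : ℕ) : MvPolynomial (Fin n ⊕ Fin q) K :=
  ∑ i : Fin q, MvPolynomial.X (Sum.inr i)

variable {K : Type*} [Field K] {n q : ℕ} (w : Fin q → ℕ) (Φ : MvPolynomial (Fin n) K)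

/-- The equation `Y z² + Y (y_1 + ... + y_q - Φ) z + 1`, `Y = y_1 ^ (w_1 + 1) ... y_q ^ (w_q + 1)`,
that is `Y z (z + y_1 + ... + y_q + 1/(Y z) - Φ)`. -/
noncomputable def eP : Polynomial (MvPolynomial (Fin n ⊕ Fin q) K) :=
  Polynomial.C (pY K n w) * Polynomial.X ^ 2 +
    Polynomial.C (pY K n w * (pS K n q - MvPolynomial.rename Sum.inl Φ)) * Polynomial.X + 1

/-- The coordinate ring of the hypersurface `Y z² + Y (y_1 + ... + y_q - Φ) z + 1 = 0` in the
affine space with coordinates `x_1, ..., x_n, y_1, ..., y_q, z`. -/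
def PRing : Type _ := AdjoinRoot (eP w Φ)

noncomputable instance : CommRing (PRing w Φ) := AdjoinRoot.instCommRing (eP w Φ)

/-- The polynomials in `x_1, ..., x_n, y_1, ..., y_q` as functions on the hypersurface. -/
noncomputable def pof : MvPolynomial (Fin n ⊕ Fin q) K →+* PRing w Φ :=
  AdjoinRoot.of (eP w Φ)

/-- The polynomials in `x_1, ..., x_n` as functions on the hypersurface. -/
noncomputable def ppol : MvPolynomial (Fin n) K →+* PRing w Φ :=
  (pof w Φ).comp (MvPolynomial.rename Sum.inl : _ →ₐ[K] _).toRingHom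

/-- The function `y_i`. -/
noncomputable def py (i : Fin q) : PRing w Φ := pof w Φ (MvPolynomial.X (Sum.inr i))

/-- The function `z`. -/
noncomputable def pz : PRing w Φ := AdjoinRoot.root (eP w Φ)

/-- The polynomial `Φ T - 1`. -/
noncomputable def pqnT : Polynomial (PRing w Φ) :=
  Polynomial.C (ppol w Φ Φ) * Polynomial.X - 1

/-- The coordinate ring of the open part `Φ ≠ 0` of the hypersurface: the ring obtained from the
coordinate ring of the hypersurface by adjoining `T` with `Φ T = 1`. -/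
def POpen : Type _ := AdjoinRoot (pqnT w Φ)

noncomputable instance : CommRing (POpen w Φ) := AdjoinRoot.instCommRing (pqnT w Φ)

/-- The restriction of functions to the open part. -/
noncomputable def toP : PRing w Φ →+* POpen w Φ := AdjoinRoot.of (pqnT w Φ)

/-- The constants. -/
noncomputable def pcst : K →+* POpen w Φ :=
  (toP w Φ).comp ((ppol w Φ).comp MvPolynomial.C)

theorem pz_eq : (∏ i, py w Φ i ^ (w i + 1)) * pz w Φ ^ 2 +
    (∏ i, py w Φ i ^ (w i + 1)) * (∑ i, py w Φ i - ppol w Φ Φ) * pz w Φ + 1 = 0 := by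
  have h := AdjoinRoot.mk_self (f := eP w Φ)
  have h2 : AdjoinRoot.mk (eP w Φ) (eP w Φ) =
      AdjoinRoot.of (eP w Φ) (pY K n w) * AdjoinRoot.root (eP w Φ) ^ 2 +
      AdjoinRoot.of (eP w Φ) (pY K n w * (pS K n q - MvPolynomial.rename Sum.inl Φ)) *
        AdjoinRoot.root (eP w Φ) + 1 := by
    conv_lhs => rw [show AdjoinRoot.mk (eP w Φ) (eP w Φ) =
      AdjoinRoot.mk (eP w Φ) (Polynomial.C (pY K n w) * Polynomial.X ^ 2 +
    Polynomial.C (pY K n w * (pS K n q - MvPolynomial.rename Sum.inl Φ)) *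
      Polynomial.X + 1) from rfl]
    rw [map_add, map_add, map_mul, map_mul, map_pow, AdjoinRoot.mk_X, AdjoinRoot.mk_C,
      AdjoinRoot.mk_C, map_one]
  rw [h2, map_mul, map_sub] at h
  have h3 : AdjoinRoot.of (eP w Φ) (pY K n w) = ∏ i, py w Φ i ^ (w i + 1) := by
    unfold pY
    have h5 : pof w Φ (∏ i : Fin q, MvPolynomial.X (Sum.inr i) ^ (w i + 1)) =
        ∏ i, py w Φ i ^ (w i + 1) := by
      rw [map_prod]
      exact Finset.prod_congr rfl fun i _ => map_pow _ _ _
    exact h5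
  have h4 : AdjoinRoot.of (eP w Φ) (pS K n q) = ∑ i, py w Φ i := by
    unfold pS
    exact map_sum (pof w Φ) _ _
  rw [h3, h4] at h
  exact h

theorem isUnit_pPhi : IsUnit (toP w Φ (ppol w Φ Φ)) := by
  have h := AdjoinRoot.mk_self (f := pqnT w Φ)
  have h2 : AdjoinRoot.mk (pqnT w Φ) (pqnT w Φ) =
      AdjoinRoot.of (pqnT w Φ) (ppol w Φ Φ) * AdjoinRoot.root (pqnT w Φ) - 1 := by
    conv_lhs => rw [show AdjoinRoot.mk (pqnT w Φ) (pqnT w Φ) =
      AdjoinRoot.mk (pqnT w Φ) (Polynomial.C (ppol w Φ Φ) * Polynomial.X - 1) from rfl]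
    rw [map_sub, map_mul, map_one, AdjoinRoot.mk_X, AdjoinRoot.mk_C]
  rw [h2, sub_eq_zero] at h
  exact IsUnit.of_mul_eq_one _ h

theorem isUnit_pz' : IsUnit (pz w Φ) := by
  refine IsUnit.of_mul_eq_one (-((∏ i, py w Φ i ^ (w i + 1)) * pz w Φ +
    (∏ i, py w Φ i ^ (w i + 1)) * (∑ i, py w Φ i - ppol w Φ Φ))) ?_
  linear_combination -(pz_eq w Φ)

theorem isUnit_pYprod : IsUnit (∏ i, py w Φ i ^ (w i + 1)) := by
  refine IsUnit.of_mul_eq_one (-(pz w Φ ^ 2 + (∑ i, py w Φ i - ppol w Φ Φ) * pz w Φ)) ?_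
  linear_combination -(pz_eq w Φ)

theorem isUnit_py' (i : Fin q) : IsUnit (py w Φ i) :=
  isUnit_of_dvd_unit ((dvd_pow_self _ (Nat.succ_ne_zero _)).trans
    (Finset.dvd_prod_of_mem (fun i => py w Φ i ^ (w i + 1)) (Finset.mem_univ i)))
    (isUnit_pYprod w Φ)

theorem isUnit_py (i : Fin q) : IsUnit (toP w Φ (py w Φ i)) := (isUnit_py' w Φ i).map _

theorem isUnit_pz : IsUnit (toP w Φ (pz w Φ)) := (isUnit_pz' w Φ).map _

/-- The unit `y_i`. -/
noncomputable def uy (i : Fin q) : (POpen w Φ)ˣ := (isUnit_py w Φ i).unit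

/-- The unit `z`. -/
noncomputable def uz : (POpen w Φ)ˣ := (isUnit_pz w Φ).unit

theorem coe_uy (i : Fin q) : (uy w Φ i : POpen w Φ) = toP w Φ (py w Φ i) := rfl

theorem coe_uz : (uz w Φ : POpen w Φ) = toP w Φ (pz w Φ) := rfl

end Ring

section forms

variable {K : Type*} [Field K] {n q : ℕ} (w : Fin q → ℕ) {m : Fin n → ℕ} (lam : K)
  (a : (k : Fin n) → Fin (m k + 1) → K)

/-- The polynomial `x_k - a_{k,i}`, `e = (k, i)`. -/
noncomputable def fl (e : (k : Fin n) × Fin (m k + 1)) : MvPolynomial (Fin n) K :=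
  MvPolynomial.X e.1 - MvPolynomial.C (a e.1 e.2)

/-- The polynomial `Φ = λ ∏_{k,i} (x_k - a_{k,i})`. -/
noncomputable def mPhi : MvPolynomial (Fin n) K := MvPolynomial.C lam * ∏ e, fl a e

theorem isUnit_fl (e : (k : Fin n) × Fin (m k + 1)) :
    IsUnit (toP w (mPhi lam a) (ppol w (mPhi lam a) (fl a e))) := by
  refine isUnit_of_dvd_unit (map_dvd _ (map_dvd _ ?_)) (isUnit_pPhi w (mPhi lam a))
  exact Dvd.dvd.mul_left (Finset.dvd_prod_of_mem (fun e => fl a e) (Finset.mem_univ e)) _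

/-- The unit `x_k - a_{k,i}`, `e = (k, i)`. -/
noncomputable def ux (e : (k : Fin n) × Fin (m k + 1)) : (POpen w (mPhi lam a))ˣ :=
  (isUnit_fl w lam a e).unit

theorem coe_ux (e : (k : Fin n) × Fin (m k + 1)) : (ux w lam a e : POpen w (mPhi lam a)) =
    toP w (mPhi lam a) (ppol w (mPhi lam a) (fl a e)) := rfl

/-- The entries `z`, `(x_k - a_{k,i_k})/(x_k - a_{k,0})`, `1 ≤ k ≤ n`, and `y_1, ..., y_q` of the
symbol of `i = (i_1, ..., i_n)`, `1 ≤ i_k ≤ m_k`. -/
noncomputable def pent (i : (k : Fin n) → Fin (m k)) :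
    Fin (n + q + 1) → (POpen w (mPhi lam a))ˣ :=
  Fin.cons (uz w (mPhi lam a)) (Fin.append
    (fun k : Fin n => ux w lam a ⟨k, (i k).succ⟩ / ux w lam a ⟨k, 0⟩)
    (fun j : Fin q => uy w (mPhi lam a) j))

theorem mPhi_ne_C (hn : 0 < n) (hl : lam ≠ 0) (y : K) : mPhi lam a ≠ MvPolynomial.C y := by
  classical
  intro h
  -- specialise all coordinates but the first
  set k0 : Fin n := ⟨0, hn⟩ with hk0
  have hfin : (Set.range fun e : (k : Fin n) × Fin (m k + 1) => a e.1 e.2).Finite :=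
    Set.finite_range _
  set φ : MvPolynomial (Fin n) K →ₐ[K] Polynomial K :=
    MvPolynomial.aeval fun _ => Polynomial.X with hφ
  have h1 : ∀ e : (k : Fin n) × Fin (m k + 1), φ (fl a e) =
      Polynomial.X - Polynomial.C (a e.1 e.2) := by
    intro e
    unfold fl
    rw [map_sub, hφ, MvPolynomial.aeval_X]
    congr 1
    exact MvPolynomial.aeval_C _ _
  have h2 : φ (mPhi lam a) = Polynomial.C lam *
      ∏ e : (k : Fin n) × Fin (m k + 1), (Polynomial.X - Polynomial.C (a e.1 e.2)) := by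
    unfold mPhi
    rw [map_mul, map_prod]
    simp only [h1]
    congr 1
    exact MvPolynomial.aeval_C _ _
  have h3 : φ (MvPolynomial.C y) = Polynomial.C y := MvPolynomial.aeval_C _ _
  rw [← h, h2] at h3
  have h4 := congrArg Polynomial.natDegree h3
  rw [Polynomial.natDegree_C, Polynomial.natDegree_C_mul hl,
    Polynomial.natDegree_prod_of_monic _ _ fun e _ => Polynomial.monic_X_sub_C _] at h4
  simp only [Polynomial.natDegree_X_sub_C, Finset.sum_const, Finset.card_univ, smul_eq_mul,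
    mul_one] at h4
  have h5 : 0 < Fintype.card ((k : Fin n) × Fin (m k + 1)) :=
    Fintype.card_pos_iff.2 ⟨⟨k0, 0⟩⟩
  omega

end forms

section Domain

variable {K : Type*} [Field K] {n q : ℕ} {w : Fin q → ℕ} {Φ : MvPolynomial (Fin n) K}

theorem pY_ne_zero : pY K n w ≠ 0 := by
  unfold pY
  exact Finset.prod_ne_zero_iff.2 fun i _ => pow_ne_zero _ (MvPolynomial.X_ne_zero _)

theorem eP_eq : eP w Φ = Polynomial.C (pY K n w) * Polynomial.X ^ 2 +
    Polynomial.C (pY K n w * (pS K n q - MvPolynomial.rename Sum.inl Φ)) * Polynomial.X +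
      Polynomial.C 1 := by
  unfold eP
  rw [map_one]

theorem natDegree_eP : (eP w Φ).natDegree = 2 := by
  rw [eP_eq]
  exact Polynomial.natDegree_quadratic pY_ne_zero

theorem irreducible_eP (hΦ : ∀ y, Φ ≠ MvPolynomial.C y) : Irreducible (eP w Φ) := by
  set φ : MvPolynomial (Fin n ⊕ Fin q) K →+* MvPolynomial (Fin n) K :=
    (MvPolynomial.aeval (Sum.elim MvPolynomial.X fun _ => 1) :
      MvPolynomial (Fin n ⊕ Fin q) K →ₐ[K] MvPolynomial (Fin n) K).toRingHom with hφ
  have hφX : ∀ i : Fin q, φ (MvPolynomial.X (Sum.inr i)) = 1 := by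
    intro i
    show (MvPolynomial.aeval (Sum.elim MvPolynomial.X fun _ => 1) :
      MvPolynomial (Fin n ⊕ Fin q) K →ₐ[K] MvPolynomial (Fin n) K) _ = 1
    rw [MvPolynomial.aeval_X]
    rfl
  have h1 : φ (pY K n w) = 1 := by
    unfold pY
    rw [map_prod]
    simp only [map_pow, hφX, one_pow, Finset.prod_const_one]
  have h2 : φ (pS K n q) = (q : MvPolynomial (Fin n) K) := by
    unfold pS
    rw [map_sum]
    simp only [hφX, Finset.sum_const, Finset.card_univ, Fintype.card_fin, nsmul_eq_mul, mul_one]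
  have h3 : φ (MvPolynomial.rename Sum.inl Φ) = Φ := by
    show (MvPolynomial.aeval (Sum.elim MvPolynomial.X fun _ => 1) :
      MvPolynomial (Fin n ⊕ Fin q) K →ₐ[K] MvPolynomial (Fin n) K)
        (MvPolynomial.rename Sum.inl Φ) = _
    rw [MvPolynomial.aeval_rename]
    have e : (Sum.elim MvPolynomial.X fun _ => 1 : Fin n ⊕ Fin q →
      MvPolynomial (Fin n) K) ∘ Sum.inl = MvPolynomial.X := by
      funext j
      rfl
    rw [e, MvPolynomial.aeval_X_left_apply]
  have h4 : (eP w Φ).map φ = Polynomial.X ^ 2 -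
      Polynomial.C (Φ - (q : MvPolynomial (Fin n) K)) * Polynomial.X + 1 := by
    unfold eP
    rw [Polynomial.map_add, Polynomial.map_add, Polynomial.map_mul, Polynomial.map_mul,
      Polynomial.map_pow, Polynomial.map_X, Polynomial.map_C, Polynomial.map_C,
      Polynomial.map_one, map_mul, map_sub, h1, h2, h3]
    simp only [map_sub, map_mul, map_one]
    ring
  have hirr : Irreducible ((eP w Φ).map φ) := by
    rw [h4]
    refine irreducible_quad fun y hy => ?_
    refine hΦ (y + (q : K)) ?_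
    rw [map_add, ← hy, map_natCast]
    ring
  refine irreducible_of_map φ ?_ ?_ ?_ hirr
  · rw [natDegree_eP, h4]
    compute_degree!
  · unfold eP
    simp
  · rw [natDegree_eP]
    norm_num

theorem isDomain_PRing (hΦ : ∀ y, Φ ≠ MvPolynomial.C y) : IsDomain (PRing w Φ) :=
  AdjoinRoot.isDomain_of_prime (irreducible_eP hΦ).prime

theorem pof_ne_zero {p : MvPolynomial (Fin n ⊕ Fin q) K} (hp : p ≠ 0) : pof w Φ p ≠ 0 := by
  intro h
  have h1 : AdjoinRoot.mk (eP w Φ) (Polynomial.C p) = 0 := h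
  rw [AdjoinRoot.mk_eq_zero] at h1
  obtain ⟨g, hg⟩ := h1
  have he : eP w Φ ≠ 0 := by
    intro h
    have := natDegree_eP (w := w) (Φ := Φ)
    rw [h, Polynomial.natDegree_zero] at this
    norm_num at this
  have hg0 : g ≠ 0 := by
    rintro rfl
    rw [mul_zero, Polynomial.C_eq_zero] at hg
    exact hp hg
  have h2 := congrArg Polynomial.natDegree hg
  rw [Polynomial.natDegree_C, Polynomial.natDegree_mul he hg0, natDegree_eP] at h2
  omega

theorem ppol_ne_zero (hΦ : ∀ y, Φ ≠ MvPolynomial.C y) : ppol w Φ Φ ≠ 0 := by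
  refine pof_ne_zero fun h => ?_
  have h1 : MvPolynomial.rename (Sum.inl : Fin n → Fin n ⊕ Fin q) Φ = 0 := h
  have h2 : Φ = 0 := by
    refine MvPolynomial.rename_injective (Sum.inl : Fin n → Fin n ⊕ Fin q)
      Sum.inl_injective ?_
    rw [h1, map_zero]
  exact hΦ 0 (by rw [h2, map_zero])

end Domain

section LiftP

variable {K : Type*} [Field K] {n q : ℕ} {w : Fin q → ℕ} {Φ : MvPolynomial (Fin n) K}
  {S : Type*} [Field S]

/-- The extension of a homomorphism with `Φ ↦ g Φ ≠ 0` to the ring of the open part. -/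
noncomputable def liftP (g : PRing w Φ →+* S) (hg : g (ppol w Φ Φ) ≠ 0) : POpen w Φ →+* S :=
  AdjoinRoot.lift g (g (ppol w Φ Φ))⁻¹ (by
    unfold pqnT
    simp only [Polynomial.eval₂_sub, Polynomial.eval₂_mul, Polynomial.eval₂_X,
      Polynomial.eval₂_C, Polynomial.eval₂_one]
    rw [mul_inv_cancel₀ hg, sub_self])

theorem liftP_toP (g : PRing w Φ →+* S) (hg : g (ppol w Φ Φ) ≠ 0)
    (b : PRing w Φ) : liftP g hg (toP w Φ b) = g b :=
  AdjoinRoot.lift_of _

theorem liftP_mk (g : PRing w Φ →+* S) (hg : g (ppol w Φ Φ) ≠ 0) (p : Polynomial (PRing w Φ)) :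
    liftP g hg (AdjoinRoot.mk (pqnT w Φ) p : AdjoinRoot (pqnT w Φ)) =
      p.eval₂ g (g (ppol w Φ Φ))⁻¹ :=
  AdjoinRoot.lift_mk _ p

end LiftP

end Pool.Agent.TH690.PF
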