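import Pool.Agent.TH690.PF.Final
set_option autoImplicit false

/-!
The unramifiedness of the symbols and the independence of their regulators, as predicates.
-/

namespace Pool.Agent.TH690.PF

open Pool.Agent.TH826.MK (KQ symb Unramified Torus)

variable {n q : ℕ} {m : Fin n → ℕ}

/-- The symbols `{z, (x_1 - a_{1,i_1})/(x_1 - a_{1,0}), ..., (x_n - a_{n,i_n})/(x_n - a_{n,0}),
y_1, ..., y_q}` are unramified: for every field of fractions `L` of the coordinate ring of the
hypersurface, there is an extension `f` of the inclusion to the ring of the open part such that for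
all `i`, `1 ≤ i_k ≤ m_k`, the image of the symbol of `i` under `f` is unramified. -/
def UnramSymb.{u, v} {K : Type u} [Field K] (w : Fin q → ℕ) (lam : K)
    (a : (k : Fin n) → Fin (m k + 1) → K) : Prop :=
  ∀ (L : Type v) [Field L] [Algebra (PRing w (mPhi lam a)) L]
    [IsFractionRing (PRing w (mPhi lam a)) L],
    ∃ f : POpen w (mPhi lam a) →+* L,
      (∀ b : PRing w (mPhi lam a), f (toP w (mPhi lam a) b) =
        algebraMap (PRing w (mPhi lam a)) L b) ∧
      ∀ i : (k : Fin n) → Fin (m k),
        KQ.map (n + q + 1) f (symb (pent w lam a i)) ∈ Unramified L (n + q + 1)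

theorem unramSymb {K : Type*} [Field K] (w : Fin q → ℕ) {lam : K}
    {a : (k : Fin n) → Fin (m k + 1) → K} (hn : 0 < n)
    (ha : ∀ k i, IsIntegral ℤ (a k i)) (hlam : IsIntegral ℤ lam) (hl0 : lam ≠ 0) :
    UnramSymb w lam a := by
  intro L _ _ _
  have hdom : IsDomain (PRing w (mPhi lam a)) := isDomain_PRing (mPhi_ne_C lam a hn hl0)
  have hinj : Function.Injective (algebraMap (PRing w (mPhi lam a)) L) :=
    IsFractionRing.injective _ _
  have hne : algebraMap (PRing w (mPhi lam a)) L
      (ppol w (mPhi lam a) (mPhi lam a)) ≠ 0 := by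
    rw [Ne, map_eq_zero_iff _ hinj]
    exact ppol_ne_zero (mPhi_ne_C lam a hn hl0)
  refine ⟨liftP (algebraMap (PRing w (mPhi lam a)) L) hne, fun b => liftP_toP _ _ _,
    fun i => ?_⟩
  exact symb_mem_unramified _ hlam ha i

/-- There are tori of dimension `n + q` in the complex points over `σ` of the open part, indexed
by the `t = (t_1, ..., t_n)`, `1 ≤ t_k ≤ m_k`, such that the determinant of the regulators on the
tori of the symbols of the `i = (i_1, ..., i_n)`, `1 ≤ i_k ≤ m_k`, does not vanish. -/
def IndepReg {K : Type*} [Field K] (w : Fin q → ℕ) (σ : K →+* ℂ) (lam : K)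
    (a : (k : Fin n) → Fin (m k + 1) → K) : Prop :=
  ∃ Γ : ((k : Fin n) → Fin (m k)) → Torus (POpen w (mPhi lam a)) (n + q),
    (∀ t θ (x : K), (Γ t).e θ (pcst w (mPhi lam a) x) = σ x) ∧
    (Matrix.of fun t i : (k : Fin n) → Fin (m k) =>
      (Γ t).reg (symb (pent w lam a i))).det ≠ 0

end Pool.Agent.TH690.PF
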