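import Pool.Agent.TH690.PF.Ring
set_option autoImplicit false

/-!
The symbols are unramified.
-/

namespace Pool.Agent.TH690.PF

open scoped WithZero

open Pool.Agent.TH826.MK (KQ symb Unramified unitPart mem_unitPart_of_oneUnit')

open Pool.Agent.TH826.EF (onePart onePart_le)

open Pool.Agent.TH690.SF (mem_onePart_of_comp block_mem_onePart)

section gen

variable {K : Type*} [Field K] {n q : ℕ} {w : Fin q → ℕ} {Φ : MvPolynomial (Fin n) K}

variable {L : Type*} [Field L] (f : POpen w Φ →+* L)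

/-- the composite map from the coefficient field -/
noncomputable def cE : K →+* L := f.comp (pcst w Φ)

/-- the image of `x_j` -/
noncomputable def xE (j : Fin n) : L := f (toP w Φ (ppol w Φ (MvPolynomial.X j)))

/-- the image of `y_i` -/
noncomputable def yE (i : Fin q) : L := f (toP w Φ (py w Φ i))

/-- the image of `z` -/
noncomputable def zE : L := f (toP w Φ (pz w Φ))

/-- the image of `Φ` -/
noncomputable def PE : L := f (toP w Φ (ppol w Φ Φ))

theorem yE_ne_zero (i : Fin q) : yE f i ≠ 0 := ((isUnit_py w Φ i).map f).ne_zero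

theorem zE_ne_zero : zE f ≠ 0 := ((isUnit_pz w Φ).map f).ne_zero

theorem zE_eq : (zE f * ∏ i, yE f i ^ (w i + 1))⁻¹ + (zE f + ∑ i, yE f i) = PE f := by
  have h := congrArg (fun b => f (toP w Φ b)) (pz_eq w Φ)
  simp only [map_add, map_sub, map_mul, map_pow, map_one, map_zero, map_prod, map_sum] at h
  have hy : ∏ i, yE f i ^ (w i + 1) ≠ 0 :=
    Finset.prod_ne_zero_iff.2 fun i _ => pow_ne_zero _ (yE_ne_zero f i)
  have hz := zE_ne_zero f
  have h2 : (∏ i, yE f i ^ (w i + 1)) * zE f ^ 2 + (∏ i, yE f i ^ (w i + 1)) *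
    (∑ i, yE f i - PE f) * zE f + 1 = 0 := h
  field_simp
  linear_combination h2

/-- the entries `z, y_1, ..., y_q` -/
noncomputable def tE : Fin (q + 1) → Lˣ :=
  Fin.cons (Units.map (f : POpen w Φ →* L) (uz w Φ))
    fun i => Units.map (f : POpen w Φ →* L) (uy w Φ i)

/-- At a valuation with `v(Φ) ≤ 1`, either the symbol `{z, y_1, ..., y_q}` is generated by symbols
with one-units, or `z`, the `y_i` and `Φ` are units. -/
theorem tE_cases (v : Valuation L ℤᵐ⁰) (hPhi : v (PE f) ≤ 1) :
    symb (tE f) ∈ onePart v (q + 1) ∨ (v (PE f) = 1 ∧ ∀ i, v (tE f i : L) = 1) := by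
  set t : Fin (q + 1) → Lˣ := tE f with ht
  have ht0 : (t 0 : L) = zE f := rfl
  have hts : ∀ i : Fin q, (t i.succ : L) = yE f i := fun i => rfl
  set wt : Fin (q + 1) → ℕ := Fin.cons 1 fun i => w i + 1 with hwt
  have hwt1 : ∀ l, 1 ≤ wt l := by
    intro l
    refine Fin.cases ?_ (fun i => ?_) l
    · exact le_rfl
    · rw [hwt, Fin.cons_succ]
      omega
  set W : Fin (q + 2) → Lˣ := Fin.cons (∏ i, t i ^ wt i)⁻¹ t with hW
  have hprod : ((∏ i, t i ^ wt i : Lˣ) : L) = zE f * ∏ i, yE f i ^ (w i + 1) := by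
    rw [Units.coe_prod, Fin.prod_univ_succ, Units.val_pow_eq_pow_val, ht0, hwt, Fin.cons_zero,
      pow_one]
    congr 1
  have hsum : ∑ k, (W k : L) = PE f := by
    rw [Fin.sum_univ_succ, ← zE_eq f]
    have h0 : ((W 0 : Lˣ) : L) = (zE f * ∏ i, yE f i ^ (w i + 1))⁻¹ := by
      rw [hW, Fin.cons_zero, Units.val_inv_eq_inv_val, hprod]
    have h1 : ∑ k : Fin (q + 1), ((W k.succ : Lˣ) : L) = zE f + ∑ i, yE f i := by
      rw [hW]
      simp only [Fin.cons_succ]
      rw [Fin.sum_univ_succ, ht0]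
      simp only [hts]
    rw [h0, h1]
  by_cases hlt : ∃ l, v (PE f) < v (W l : L)
  · obtain ⟨l, hl⟩ := hlt
    left
    exact block_mem_onePart v t wt l (by
      rw [← hW, hsum]
      exact hl)
  · right
    push Not at hlt
    have hw1 : ∀ l, v (W l : L) ≤ 1 := fun l => (hlt l).trans hPhi
    have hti1 : ∀ i, v (t i : L) ≤ 1 := by
      intro i
      have h1 := hw1 i.succ
      rwa [hW, Fin.cons_succ] at h1
    have hP1 : 1 ≤ ∏ i, v (t i : L) ^ wt i := by
      have h1 := hw1 0
      rw [hW, Fin.cons_zero, Units.val_inv_eq_inv_val, Units.coe_prod, map_inv₀, map_prod] at h1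
      simp only [Units.val_pow_eq_pow_val, map_pow] at h1
      have h0 : 0 < ∏ i, v (t i : L) ^ wt i := by
        rw [zero_lt_iff]
        exact Finset.prod_ne_zero_iff.2 fun i _ =>
          pow_ne_zero _ ((Valuation.ne_zero_iff v).2 (t i).ne_zero)
      rwa [inv_le_one₀ h0] at h1
    have hpow : ∀ l, v (t l : L) ^ wt l ≤ v (t l : L) := by
      intro l
      obtain ⟨k, hk⟩ := Nat.exists_eq_succ_of_ne_zero (Nat.one_le_iff_ne_zero.1 (hwt1 l))
      rw [hk, pow_succ]
      calc _ ≤ 1 * v (t l : L) := mul_le_mul' (pow_le_one' (hti1 l) _) le_rfl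
        _ = _ := one_mul _
    have hti : ∀ i, v (t i : L) = 1 := by
      intro l
      refine le_antisymm (hti1 l) (hP1.trans ?_)
      rw [← Finset.mul_prod_erase _ _ (Finset.mem_univ l)]
      calc v (t l : L) ^ wt l * ∏ x ∈ Finset.univ.erase l, v (t x : L) ^ wt x
          ≤ v (t l : L) * 1 := mul_le_mul' (hpow l)
            (Finset.prod_le_one' fun j _ => pow_le_one' (hti1 j) _)
        _ = v (t l : L) := mul_one _
    have hweq0 : 1 ≤ v (W (Fin.succ 0) : L) := by
      rw [hW, Fin.cons_succ, hti]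
    exact ⟨le_antisymm hPhi (hweq0.trans (hlt _)), hti⟩

end gen

section forms

variable {K : Type*} [Field K] {n q : ℕ} {w : Fin q → ℕ} {m : Fin n → ℕ} {lam : K}
  {a : (k : Fin n) → Fin (m k + 1) → K}

variable {L : Type*} [Field L] (f : POpen w (mPhi lam a) →+* L)

/-- the image of `x_k - a_{k,i}` -/
noncomputable def lE (e : (k : Fin n) × Fin (m k + 1)) : L := xE f e.1 - cE f (a e.1 e.2)

theorem map_fl (e : (k : Fin n) × Fin (m k + 1)) :
    f (toP w (mPhi lam a) (ppol w (mPhi lam a) (fl a e))) = lE f e := by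
  unfold fl lE
  rw [map_sub, map_sub, map_sub]
  rfl

theorem map_ux (e : (k : Fin n) × Fin (m k + 1)) :
    f (ux w lam a e : POpen w (mPhi lam a)) = lE f e := by
  rw [coe_ux, map_fl]

theorem PE_eq : PE f = cE f lam * ∏ e, lE f e := by
  have h : PE f = f (toP w (mPhi lam a) (ppol w (mPhi lam a)
    (MvPolynomial.C lam * ∏ e, fl a e))) := rfl
  rw [h, map_mul, map_mul, map_mul, map_prod, map_prod, map_prod]
  simp only [map_fl]
  rfl

theorem lE_ne_zero (e : (k : Fin n) × Fin (m k + 1)) : lE f e ≠ 0 := by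
  rw [← map_fl]
  exact ((isUnit_fl w lam a e).map f).ne_zero

/-- the places of `z` and the `y_i` among the entries -/
def iy (n q : ℕ) : Fin (q + 1) → Fin (n + q + 1) :=
  Fin.cons 0 fun i => (Fin.natAdd n i).succ

theorem iy_injective (n q : ℕ) : Function.Injective (iy n q) := by
  unfold iy
  rw [Fin.cons_injective_iff]
  refine ⟨?_, fun k l h => Fin.natAdd_injective _ _ (Fin.succ_injective _ h)⟩
  rintro ⟨i, hi⟩
  exact Fin.succ_ne_zero _ hi

/-- The symbols are unramified at all discrete valuations. -/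
theorem symb_mem_unitPart (hlam : IsIntegral ℤ lam) (ha : ∀ k i, IsIntegral ℤ (a k i))
    (v : Valuation L ℤᵐ⁰) (i : (k : Fin n) → Fin (m k)) :
    symb (fun l => Units.map (f : POpen w (mPhi lam a) →* L) (pent w lam a i l)) ∈
      unitPart v (n + q + 1) := by
  have hc : ∀ x : K, IsIntegral ℤ x → v (cE f x) ≤ 1 := fun x hx =>
    Pool.Agent.TH826.MK.val_le_one_of_integral v (map_isIntegral_int _ hx)
  set b : Fin (n + q + 1) → Lˣ :=
    fun l => Units.map (f : POpen w (mPhi lam a) →* L) (pent w lam a i l) with hb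
  have hbu : ∀ k : Fin n, (b (Fin.castAdd q k).succ : L) =
      lE f ⟨k, (i k).succ⟩ / lE f ⟨k, 0⟩ := by
    intro k
    have h1 : pent w lam a i (Fin.castAdd q k).succ =
        ux w lam a ⟨k, (i k).succ⟩ / ux w lam a ⟨k, 0⟩ := by
      unfold pent
      rw [Fin.cons_succ, Fin.append_left]
    show ((Units.map (f : POpen w (mPhi lam a) →* L)
      (pent w lam a i (Fin.castAdd q k).succ) : Lˣ) : L) = _
    rw [h1, map_div, Units.val_div_eq_div_val, Units.coe_map, Units.coe_map]
    exact congrArg₂ (fun x y : L => x / y) (map_ux f _) (map_ux f _)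
  have hby : (fun k : Fin (q + 1) => b (iy n q k)) = tE f := by
    funext k
    refine Fin.cases ?_ (fun j => ?_) k
    · rfl
    · have h1 : pent w lam a i (iy n q j.succ) = uy w (mPhi lam a) j := by
        unfold pent iy
        rw [Fin.cons_succ, Fin.cons_succ, Fin.append_right]
      show Units.map (f : POpen w (mPhi lam a) →* L) (pent w lam a i (iy n q j.succ)) = _
      rw [h1]
      rfl
  by_cases hB : ∃ k, 1 < v (xE f k)
  · obtain ⟨k, hk⟩ := hB
    refine mem_unitPart_of_oneUnit' v (Fin.castAdd q k).succ b ?_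
    have h0 : v (lE f ⟨k, 0⟩) = v (xE f k) := by
      unfold lE
      exact Valuation.map_sub_eq_of_lt_left v ((hc _ (ha _ _)).trans_lt hk)
    have h1 : lE f ⟨k, (i k).succ⟩ / lE f ⟨k, 0⟩ - 1 =
        (cE f (a k 0) - cE f (a k (i k).succ)) / lE f ⟨k, 0⟩ := by
      have h2 := lE_ne_zero f ⟨k, 0⟩
      rw [div_sub_one h2]
      congr 1
      unfold lE
      ring
    rw [hbu, h1, map_div₀, h0, div_lt_one₀ (zero_lt_one.trans hk)]
    exact ((v.map_sub _ _).trans (max_le (hc _ (ha _ _)) (hc _ (ha _ _)))).trans_lt hk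
  · push Not at hB
    have hle : ∀ e, v (lE f e) ≤ 1 := by
      intro e
      unfold lE
      exact (v.map_sub _ _).trans (max_le (hB _) (hc _ (ha _ _)))
    have hPhi : v (PE f) ≤ 1 := by
      rw [PE_eq, map_mul, map_prod]
      exact mul_le_one' (hc _ hlam) (Finset.prod_le_one' fun e _ => hle e)
    rcases tE_cases f v hPhi with h1 | ⟨hu3, hti⟩
    · exact onePart_le v (mem_onePart_of_comp v b (iy_injective n q) (by rw [hby]; exact h1))
    · have hB1 : ∀ e, v (lE f e) = 1 := by
        intro e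
        refine le_antisymm (hle e) ?_
        rw [← hu3, PE_eq, map_mul, map_prod, ← Finset.mul_prod_erase _ _ (Finset.mem_univ e)]
        have h1 : ∏ x ∈ Finset.univ.erase e, v (lE f x) ≤ 1 :=
          Finset.prod_le_one' fun j _ => hle j
        calc v (cE f lam) * (v (lE f e) * ∏ x ∈ Finset.univ.erase e, v (lE f x))
            ≤ 1 * (v (lE f e) * 1) := mul_le_mul' (hc _ hlam) (mul_le_mul' le_rfl h1)
          _ = v (lE f e) := by rw [one_mul, mul_one]
      refine Submodule.subset_span ⟨_, fun l => ?_, rfl⟩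
      refine Fin.cases ?_ (fun l => ?_) l
      · exact hti 0
      · refine Fin.addCases (fun k => ?_) (fun j => ?_) l
        · rw [hbu, map_div₀, hB1, hB1, div_one]
        · have h1 : b (Fin.natAdd n j).succ = tE f j.succ := congrFun hby j.succ
          rw [h1]
          exact hti j.succ

theorem symb_mem_unramified (hlam : IsIntegral ℤ lam) (ha : ∀ k i, IsIntegral ℤ (a k i))
    (i : (k : Fin n) → Fin (m k)) :
    KQ.map (n + q + 1) f (symb (pent w lam a i)) ∈ Unramified L (n + q + 1) := by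
  rw [KQ.map_symb]
  unfold Unramified
  simp only [Submodule.mem_iInf]
  intro v _
  exact symb_mem_unitPart f hlam ha v i

end forms

end Pool.Agent.TH690.PF
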